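import Pool.Agent.H72.Br.Index

/-!
# Base change of Brauer classes
-/

set_option autoImplicit false

open Module TensorProduct Matrix MulOpposite
open Pool.Agent.H72.SB hiding IsFunctionField

namespace Pool.Agent.H72.Br

open Pool.Agent.H49.GSB Pool.Agent.H49.Cyc

universe u

variable {k : Type u} [Field k]

theorem isCentral_base (K A : Type u) [Field K] [Algebra k K] [Ring A] [Algebra k A]
    [Algebra.IsCentral k A] : Algebra.IsCentral K (K ⊗[k] A) := by
  constructor
  intro x hx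
  rw [Subalgebra.mem_center_iff] at hx
  let e := Algebra.TensorProduct.comm k K A
  have h1 : ∀ z, z * e x = e x * z := by
    intro z
    have h2 := congrArg e (hx (e.symm z))
    rwa [map_mul, map_mul, AlgEquiv.apply_symm_apply] at h2
  obtain ⟨y, hy⟩ := center_tensor A K h1
  refine Algebra.mem_bot.2 ⟨y, ?_⟩
  have h3 : e.symm (e x) = e.symm (1 ⊗ₜ y) := by rw [hy]
  rw [AlgEquiv.symm_apply_apply, Algebra.TensorProduct.comm_symm_tmul] at h3
  rw [h3]
  rfl

/-- Extension of scalars. -/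
def bcr (K : Type u) [Field K] [Algebra k K] (A : CSA.{u, u} k) : CSA.{u, u} K :=
  haveI : IsSimpleRing (K ⊗[k] A) := isSimpleRing_tensor k K A
  haveI : Algebra.IsCentral K (K ⊗[k] A) := isCentral_base K A
  { carrier := K ⊗[k] A }

variable (K : Type u) [Field K] [Algebra k K]

/-- `K ⊗ (A ⊗ B) = (K ⊗ A) ⊗ (K ⊗ B)`. -/
noncomputable def baseTensor (A B : Type u) [Ring A] [Algebra k A] [Ring B] [Algebra k B] :
    K ⊗[k] (A ⊗[k] B) ≃ₐ[K] (K ⊗[k] A) ⊗[K] (K ⊗[k] B) :=
  ((Algebra.TensorProduct.tensorTensorTensorComm k k K K K A K B).trans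
    (Algebra.TensorProduct.congr (Algebra.TensorProduct.rid K K K) AlgEquiv.refl)).symm

/-- `K ⊗ Aᵒᵖ = (K ⊗ A)ᵒᵖ`. -/
noncomputable def baseOp (A : Type u) [Ring A] [Algebra k A] :
    K ⊗[k] Aᵐᵒᵖ ≃ₐ[K] (K ⊗[k] A)ᵐᵒᵖ :=
  (Algebra.TensorProduct.congr (AlgEquiv.toOpposite K K) AlgEquiv.refl).trans
    (Algebra.TensorProduct.opAlgEquiv k K K A)

/-- `K ⊗ Mₙ(A) = Mₙ(K ⊗ A)`. -/
noncomputable def baseMatrix (n : ℕ) (A : Type u) [Ring A] [Algebra k A] :
    K ⊗[k] Matrix (Fin n) (Fin n) A ≃ₐ[K] Matrix (Fin n) (Fin n) (K ⊗[k] A) :=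
  (Algebra.TensorProduct.congr (Matrix.uniqueAlgEquiv (m := Unit) (R := K) (A := K)).symm
    AlgEquiv.refl).trans
    ((Matrix.kroneckerTMulAlgEquiv Unit (Fin n) k K K A).trans
      (Matrix.reindexAlgEquiv K (K ⊗[k] A) (Equiv.punitProd (Fin n))))

theorem brauer_base {A B : CSA.{u, u} k} (h : IsBrauerEquivalent A B) :
    IsBrauerEquivalent (bcr K A) (bcr K B) := by
  obtain ⟨n, m, hn, hm, ⟨e⟩⟩ := h
  refine ⟨n, m, hn, hm, ⟨?_⟩⟩
  exact (baseMatrix K n A).symm.trans
    ((Algebra.TensorProduct.congr AlgEquiv.refl e).trans (baseMatrix K m B))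

/-- T4: base change of the subgroup generated by a class. -/
theorem inCyclic_base {A B : CSA.{u, u} k} (h : InCyclic A B) :
    InCyclic (bcr K A) (bcr K B) := by
  induction h with
  | self => exact .self
  | one C e =>
    obtain ⟨e⟩ := e
    refine .one (bcr K C) ⟨?_⟩
    exact (Algebra.TensorProduct.congr AlgEquiv.refl e).trans (Algebra.TensorProduct.rid k K K)
  | mul B C E _ _ e hB hC =>
    obtain ⟨e⟩ := e
    refine .mul (bcr K B) (bcr K C) (bcr K E) hB hC ⟨?_⟩
    exact (Algebra.TensorProduct.congr AlgEquiv.refl e).trans (baseTensor K B C)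
  | inv B C _ e hB =>
    obtain ⟨e⟩ := e
    refine .inv (bcr K B) (bcr K C) hB ⟨?_⟩
    exact (Algebra.TensorProduct.congr AlgEquiv.refl e).trans (baseOp K B)
  | equiv B C _ e hB => exact .equiv (bcr K B) (bcr K C) hB (brauer_base K e)

/-- The dimension of a right ideal of a matrix algebra over a division algebra. -/
theorem dvd_finrank_ideal {D : CSA.{u, u} k} {r : ℕ} (hr : 0 < r)
    (hdiv : ∀ x : D, x ≠ 0 → IsUnit x)
    (J : Submodule k (Matrix (Fin r) (Fin r) D)) (hJ : ∀ x ∈ J, ∀ y, x * y ∈ J) :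
    ∃ w, finrank k J = w * (r * finrank k D) := by
  classical
  let _ : DivisionRing (D : Type u) := DivisionRing.ofIsUnitOrEqZero fun x => by
    by_cases hx : x = 0
    · exact Or.inr hx
    · exact Or.inl (hdiv x hx)
  let z : Fin r := ⟨0, hr⟩
  let W : Submodule (D : Type u)ᵐᵒᵖ (Fin r → D) :=
    { carrier := {v | ∃ M ∈ J, ∀ i, M i z = v i}
      add_mem' := by
        rintro v w ⟨M, hM, h1⟩ ⟨N, hN, h2⟩
        exact ⟨M + N, J.add_mem hM hN, fun i => by
          rw [Matrix.add_apply, h1, h2, Pi.add_apply]⟩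
      zero_mem' := ⟨0, J.zero_mem, fun i => rfl⟩
      smul_mem' := by
        rintro c v ⟨M, hM, h1⟩
        refine ⟨M * Matrix.single z z c.unop, hJ M hM _, fun i => ?_⟩
        rw [Matrix.mul_single_apply_same, h1]
        rfl }
  have hW : ∀ v, v ∈ W ↔ ∃ M ∈ J, ∀ i, M i z = v i := fun v => Iff.rfl
  have hcol : ∀ M ∈ J, ∀ j, (fun i => M i j) ∈ W := by
    intro M hM j
    refine (hW _).2 ⟨M * Matrix.single j z 1, hJ M hM _, fun i => ?_⟩
    rw [Matrix.mul_single_apply_same, mul_one]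
  let f : J →ₗ[k] (Fin r → W) :=
    { toFun := fun M j => ⟨fun i => (M : Matrix (Fin r) (Fin r) D) i j, hcol M M.2 j⟩
      map_add' := fun M N => rfl
      map_smul' := fun c M => rfl }
  have hbij : Function.Bijective f := by
    constructor
    · intro M N h
      apply Subtype.ext
      ext i j
      have h1 := congrArg (fun w : W => (w : Fin r → D) i) (congrFun h j)
      exact h1
    · intro g
      have h1 : ∀ j, ∃ M ∈ J, ∀ i, M i z = (g j : Fin r → D) i := fun j => (hW _).1 (g j).2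
      choose M hM hMz using h1
      have hsum : (∑ j, M j * Matrix.single z j 1) ∈ J :=
        J.sum_mem fun j _ => hJ _ (hM j) _
      refine ⟨⟨_, hsum⟩, ?_⟩
      funext j
      apply Subtype.ext
      funext i
      change (∑ j', M j' * Matrix.single z j' 1 : Matrix (Fin r) (Fin r) D) i j =
        (g j : Fin r → D) i
      rw [Matrix.sum_apply, Finset.sum_eq_single j]
      · rw [Matrix.mul_single_apply_same, mul_one, hMz]
      · intro j' _ hj'
        rw [Matrix.mul_single_apply_of_ne]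
        exact fun h => hj' h.symm
      · intro h; exact absurd (Finset.mem_univ _) h
  have hfin : FiniteDimensional k W :=
    FiniteDimensional.of_injective (W.subtype.restrictScalars k) W.subtype_injective
  have h1 : finrank k J = r * finrank k W := by
    rw [(LinearEquiv.ofBijective f hbij).finrank_eq, Module.finrank_pi_fintype]
    simp
  have hD : finrank k (D : Type u)ᵐᵒᵖ = finrank k D := (MulOpposite.opLinearEquiv k).finrank_eq.symm
  have h2 := Module.finrank_mul_finrank k (D : Type u)ᵐᵒᵖ W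
  refine ⟨finrank (D : Type u)ᵐᵒᵖ W, ?_⟩
  rw [h1, ← h2, hD]
  ring

/-- T5: a right ideal gives a reduction of the index. -/
theorem exists_matrix_of_ideal (Q : CSA.{u, u} k) {e e' h : ℕ} (hQ : finrank k Q = e ^ 2)
    (he : e = e' * h) (he' : 0 < e') (hh : 0 < h) (J : Submodule K (K ⊗[k] Q))
    (hJ : ∀ x ∈ J, ∀ y, x * y ∈ J) (hdim : finrank K J = e' * e) :
    ∃ D' : CSA.{u, u} K, finrank K D' = e' ^ 2 ∧
      Nonempty (K ⊗[k] Q ≃ₐ[K] Matrix (Fin h) (Fin h) D') := by
  have he0 : 0 < e := by rw [he]; exact Nat.mul_pos he' hh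
  have hQK : finrank K (bcr K Q) = e ^ 2 := by
    rw [← hQ]
    exact Module.finrank_baseChange
  obtain ⟨r, D, hr, hdiv, ⟨f⟩⟩ := exists_division (bcr K Q)
  obtain ⟨δ, hδ, her, hD⟩ := exists_degree hQK hr he0 f
  have f' : K ⊗[k] Q ≃ₐ[K] Matrix (Fin r) (Fin r) D := f
  obtain ⟨w, hw⟩ := dvd_finrank_ideal (Nat.pos_of_ne_zero hr) hdiv (J.map f'.toLinearMap)
    (by
      rintro _ ⟨x, hx, rfl⟩ y
      refine ⟨x * f'.symm y, hJ x hx _, ?_⟩
      change f' (x * f'.symm y) = f' x * y
      rw [map_mul, AlgEquiv.apply_symm_apply])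
  have hmap : finrank K (J.map f'.toLinearMap) = finrank K J :=
    LinearEquiv.finrank_map_eq f'.toLinearEquiv J
  rw [hmap, hdim, hD] at hw
  have h1 : e' = w * δ := by
    have h2 : e' * (r * δ) = (w * δ) * (r * δ) := by rw [← her, hw]; ring_nf; rw [her]; ring
    exact Nat.eq_of_mul_eq_mul_right (her ▸ he0) h2
  have hw0 : w ≠ 0 := by rintro rfl; omega
  have h3 : r = h * w := by
    have h4 : r * δ = (h * w) * δ := by rw [← her, he, h1]; ring
    exact Nat.eq_of_mul_eq_mul_right hδ h4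
  refine ⟨mat w hw0 D, ?_, ⟨?_⟩⟩
  · have h5 : finrank K (mat w hw0 D) =
        Fintype.card (Fin w) * Fintype.card (Fin w) * finrank K D :=
      Module.finrank_matrix K D (Fin w) (Fin w)
    rw [h5, hD, Fintype.card_fin, h1]
    ring
  · subst h3
    exact f'.trans ((Matrix.reindexAlgEquiv K D finProdFinEquiv).symm.trans
      (Matrix.compAlgEquiv (Fin h) (Fin w) D K).symm)

end Pool.Agent.H72.Br
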