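import Pool.Agent.H72.Br.Ext
import Pool.Agent.H49.Cop.Final

/-!
# The function field of the fibre
-/

set_option autoImplicit false

open Module Matrix TensorProduct
open Pool.Agent.H72.SB hiding IsFunctionField

namespace Pool.Agent.H72.Br

open Pool.Agent.H49.GSB hiding IsFunctionField
open Pool.Agent.H49.Cyc

universe u

variable {k : Type u} [Field k]

/-- A field of rational functions in no variable. -/
theorem nonempty_equiv_zero (k : Type u) [Field k] (F : Type u) [Field F] [Algebra k F] :
    Nonempty (F ≃ₐ[k] FractionRing (MvPolynomial (Fin 0) F)) := by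
  have hinj : Function.Injective (algebraMap F (FractionRing (MvPolynomial (Fin 0) F))) :=
    (algebraMap F _).injective
  have hsurj : Function.Surjective (algebraMap F (FractionRing (MvPolynomial (Fin 0) F))) := by
    have h := ratX_gen k F 0
      (IsScalarTower.toAlgHom k F (FractionRing (MvPolynomial (Fin 0) F))).fieldRange
      (fun c => ⟨c, rfl⟩) (fun i => i.elim0)
    intro x
    have hx : x ∈ (IsScalarTower.toAlgHom k F
        (FractionRing (MvPolynomial (Fin 0) F))).fieldRange := by rw [h]; trivial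
    exact hx
  exact ⟨AlgEquiv.ofBijective (IsScalarTower.toAlgHom k F _) ⟨hinj, hsurj⟩⟩

/-- The algebra `P ⊗ D` where `D` has degree `e'`. -/
theorem functionField_tensor [Infinite k] (B P D : CSA.{u, u} k) {d e' d' : ℕ}
    (eB : B ≃ₐ[k] P ⊗[k] D) (hP : finrank k P = d ^ 2) (hD : finrank k D = e' ^ 2)
    (hco : Nat.Coprime d e') (he' : 0 < e') (hd' : 0 < d') (hd'd : d' < d) (hdvd : d' ∣ d)
    {F : Type u} [Field F] [Algebra k F] (hF : H72.SB.IsFunctionField P d' F) :
    H72.SB.IsFunctionField B (d' * e') (FractionRing (MvPolynomial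
      (Fin (d' * e' * (d * e' - d' * e') - d' * (d - d'))) F)) := by
  rcases Nat.lt_or_ge 1 e' with h1 | h1
  · have eB' : B ≃ₐ[k] D ⊗[k] P := eB.trans (Algebra.TensorProduct.comm k P D)
    have h2 := Pool.Agent.H49.Cop.half B D P (d := e') (e := d) (m₁ := d') (g := d') eB' hD hP
      (by omega) hco.symm hd' hd'd (Nat.gcd_eq_left hdvd).symm hF
    have h3 : e' * d' * (e' * d - e' * d') = d' * e' * (d * e' - d' * e') := by
      rw [mul_comm e' d', mul_comm e' d]
    rw [h3, mul_comm e' d'] at h2
    exact h2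
  · have he1 : e' = 1 := by omega
    subst he1
    have hbij : Function.Bijective (algebraMap k D) := by
      refine ⟨(algebraMap k D).injective, ?_⟩
      have h4 : finrank k k = finrank k D := by rw [hD, finrank_self]; norm_num
      exact (LinearMap.injective_iff_surjective_of_finrank_eq_finrank h4
        (f := (Algebra.linearMap k D))).1 (algebraMap k D).injective
    have eD : D ≃ₐ[k] k := (AlgEquiv.ofBijective (Algebra.ofId k D) hbij).symm
    have eBP : P ≃ₐ[k] B := (Algebra.TensorProduct.rid k k P).symm.trans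
      ((Algebra.TensorProduct.congr AlgEquiv.refl eD.symm).trans eB.symm)
    have h5 : d' * 1 * (d * 1 - d' * 1) - d' * (d - d') = 0 := by
      rw [mul_one, mul_one, Nat.sub_self]
    rw [h5, mul_one]
    obtain ⟨f⟩ := nonempty_equiv_zero k F
    exact (hF.congr eBP).congr_field f

/-- The function field of `SB_{d' e'}(P ⊗ M_κ(D))`, `deg D = e'`. -/
theorem functionField_fibre [Infinite k] (R P D : CSA.{u, u} k) {d e' d' κ : ℕ}
    (eR : R ≃ₐ[k] P ⊗[k] Matrix (Fin κ) (Fin κ) D) (hP : finrank k P = d ^ 2)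
    (hD : finrank k D = e' ^ 2) (hco : Nat.Coprime d e') (he' : 0 < e') (hκ : 0 < κ)
    (hd' : 0 < d') (hd'd : d' < d) (hdvd : d' ∣ d) {F : Type u} [Field F] [Algebra k F]
    (hF : H72.SB.IsFunctionField P d' F) :
    H72.SB.IsFunctionField R (d' * e') (FractionRing (MvPolynomial
      (Fin (d' * e' * (κ * (d * e') - d' * e') - d' * (d - d'))) F)) := by
  let B : CSA.{u, u} k := ten P D
  have hB : finrank k B = (d * e') ^ 2 := by
    have h1 : finrank k B = finrank k P * finrank k D := Module.finrank_tensorProduct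
    rw [h1, hP, hD]; ring
  have eRB : R ≃ₐ[k] Matrix (Fin κ) (Fin κ) B := by
    refine eR.trans ?_
    -- `P ⊗ M_κ(D) = M_κ(P ⊗ D)`
    refine (Algebra.TensorProduct.congr (Matrix.uniqueAlgEquiv (m := Unit) (R := k) (A := P)).symm
      AlgEquiv.refl).trans ?_
    exact (Matrix.kroneckerTMulAlgEquiv Unit (Fin κ) k k P D).trans
      (Matrix.reindexAlgEquiv k (P ⊗[k] D) (Equiv.punitProd (Fin κ)))
  have h1 := functionField_tensor B P D (d' := d') AlgEquiv.refl hP hD hco he' hd' hd'd hdvd hF
  have hm1 : 1 ≤ d' * e' := Nat.mul_pos hd' he'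
  have hde : d' * e' ≤ d * e' := Nat.mul_le_mul_right _ hd'd.le
  have hmn : d' * e' ≤ κ * (d * e') := hde.trans (Nat.le_mul_of_pos_left _ hκ)
  have hgcd : Nat.gcd (d' * e') (d * e') = d' * e' := by
    rw [Nat.gcd_mul_right, Nat.gcd_eq_left hdvd]
  have h1' : H72.SB.IsFunctionField B (Nat.gcd (d' * e') (d * e')) (FractionRing (MvPolynomial
      (Fin (d' * e' * (d * e' - d' * e') - d' * (d - d'))) F)) := by rw [hgcd]; exact h1
  have h2 := functionField_matrix R B hB eRB hm1 hmn h1'
  rw [hgcd] at h2
  have h3 : d' * (d - d') ≤ d' * e' * (d * e' - d' * e') := by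
    rw [← Nat.sub_mul]
    calc d' * (d - d') = d' * 1 * ((d - d') * 1) := by ring
      _ ≤ d' * e' * ((d - d') * e') :=
        Nat.mul_le_mul (Nat.mul_le_mul_left _ he') (Nat.mul_le_mul_left _ he')
  have h4 : d' * e' * (d * e' - d' * e') ≤ d' * e' * (κ * (d * e') - d' * e') :=
    Nat.mul_le_mul_left _ (Nat.sub_le_sub_right (Nat.le_mul_of_pos_left _ hκ) _)
  obtain ⟨f⟩ := nonempty_equiv_tower k F (d' * e' * (d * e' - d' * e') - d' * (d - d'))
    (d' * e' * (κ * (d * e') - d' * e') - d' * e' * (d * e' - d' * e'))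
  have h5 : d' * e' * (κ * (d * e') - d' * e') - d' * (d - d') =
      (d' * e' * (d * e' - d' * e') - d' * (d - d')) +
      (d' * e' * (κ * (d * e') - d' * e') - d' * e' * (d * e' - d' * e')) := by omega
  rw [h5]
  exact h2.congr_field f.symm

end Pool.Agent.H72.Br
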