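import Pool.Agent.H49.Cop.Fibration
import Pool.Agent.H72.Br.Fibre

/-!
# Tensor products of coprime degrees: all `m`
-/

set_option autoImplicit false

open Module Matrix TensorProduct
open Pool.Agent.H72.SB hiding IsFunctionField

namespace Pool.Agent.H72.Br

open Pool.Agent.H49.GSB hiding IsFunctionField
open Pool.Agent.H49.Cyc

universe u

variable {k : Type u} [Field k]

/-- The number of variables is large enough. -/
theorem arith_vars {d e d' e' κ' r : ℕ} (hd' : 0 < d') (hd'd : d' < d) (he' : 0 < e')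
    (he : 1 < e) (hκ' : 0 < κ') (hr : d' * e' * d = r * e + e' * κ') (hκe : e' * κ' < e) :
    d' * (d - d') ≤ (d' * e' * (κ' * (d * e') - d' * e') - d' * (d - d')) +
      r * e * (e - e' * κ') := by
  obtain ⟨x, rfl⟩ := Nat.exists_eq_add_of_lt hd'd
  have h1 : d' + x + 1 - d' = x + 1 := by omega
  rw [h1]
  rcases Nat.lt_or_ge 1 (e' * κ') with h2 | h2
  · -- `e' ≥ 2` or `κ' ≥ 2`
    have h3 : 2 * (d' * (x + 1)) ≤ d' * e' * (κ' * ((d' + x + 1) * e') - d' * e') := by
      have h4 : κ' * ((d' + x + 1) * e') - d' * e' = e' * (κ' * (d' + x + 1) - d') := by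
        rw [Nat.mul_sub]
        congr 1 <;> ring
      rw [h4]
      obtain ⟨y, rfl⟩ := Nat.exists_eq_add_of_lt hκ'
      have h5 : (0 + y + 1) * (d' + x + 1) - d' = y * (d' + x + 1) + (x + 1) := by
        have : (0 + y + 1) * (d' + x + 1) = y * (d' + x + 1) + (x + 1) + d' := by ring
        rw [this, Nat.add_sub_cancel]
      rw [h5]
      rcases Nat.lt_or_ge 1 e' with h6 | h6
      · obtain ⟨z, rfl⟩ := Nat.exists_eq_add_of_le h6
        calc 2 * (d' * (x + 1)) ≤ 2 * (2 * (d' * (x + 1))) := by omega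
          _ = d' * 2 * (2 * (x + 1)) := by ring
          _ ≤ d' * (1 + 1 + z) * ((1 + 1 + z) * (y * (d' + x + 1) + (x + 1))) := by
            refine Nat.mul_le_mul (Nat.mul_le_mul_left _ (by omega))
              (Nat.mul_le_mul (by omega) (by omega))
      · have h7 : e' = 1 := by omega
        subst h7
        have h8 : 0 < y := by omega
        obtain ⟨w, rfl⟩ := Nat.exists_eq_add_of_lt h8
        have h9 : 2 * (x + 1) ≤ (0 + w + 1) * (d' + x + 1) + (x + 1) := by
          have : 1 * (x + 1) ≤ (0 + w + 1) * (d' + x + 1) :=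
            Nat.mul_le_mul (by omega) (by omega)
          omega
        calc 2 * (d' * (x + 1)) = d' * 1 * (1 * (2 * (x + 1))) := by ring
          _ ≤ d' * 1 * (1 * ((0 + w + 1) * (d' + x + 1) + (x + 1))) :=
            Nat.mul_le_mul_left _ (Nat.mul_le_mul_left _ h9)
    omega
  · have h3 : e' * κ' = 1 := by
      have : 0 < e' * κ' := Nat.mul_pos he' hκ'
      omega
    have h4 : e' = 1 := Nat.dvd_one.1 ⟨κ', h3.symm⟩
    have h5 : κ' = 1 := by rw [h4, one_mul] at h3; exact h3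
    subst h4 h5
    have h6 : d' * (x + 1) ≤ r * e * (e - 1 * 1) := by
      have h7 : r * e = d' * (d' + x + 1) - 1 := by
        rw [mul_one, mul_one] at hr
        omega
      have h8 : 1 ≤ e - 1 * 1 := by omega
      have h9 : d' * (x + 1) ≤ r * e := by
        rw [h7]
        have h10 : d' * (d' + x + 1) = d' * (x + 1) + d' * d' := by ring
        have h11 : 1 ≤ d' * d' := Nat.mul_pos hd' hd'
        omega
      calc d' * (x + 1) = d' * (x + 1) * 1 := by ring
        _ ≤ r * e * (e - 1 * 1) := Nat.mul_le_mul h9 h8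
    omega

/-- The dimensions. -/
theorem arith_dim {m d e κ r : ℕ} (hr : m * d = r * e + κ) (hκ : κ ≤ e) (hm : m ≤ d * κ) :
    r * e * (e - κ) + κ * (e - κ) + m * (d * κ - m) = m * (d * e - m) := by
  obtain ⟨x, rfl⟩ := Nat.exists_eq_add_of_le hκ
  obtain ⟨y, hy⟩ := Nat.exists_eq_add_of_le hm
  have h1 : κ + x - κ = x := by omega
  have h2 : d * κ - m = y := by omega
  have h3 : d * (κ + x) - m = y + d * x := by
    have : d * (κ + x) = y + d * x + m := by rw [mul_add, hy]; ring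
    rw [this, Nat.add_sub_cancel]
  rw [h1, h2, h3]
  calc r * (κ + x) * x + κ * x + m * y = (r * (κ + x) + κ) * x + m * y := by ring
    _ = m * (y + d * x) := by rw [← hr]; ring

/-- Swap the first factor. -/
theorem swap_first [Infinite k] (A A' P P' Q : CSA.{u, u} k) {d e d' e' : ℕ}
    (eA : A ≃ₐ[k] P ⊗[k] Q) (eA' : A' ≃ₐ[k] P' ⊗[k] Q) (hP : finrank k P = d ^ 2)
    (hP' : finrank k P' = d ^ 2) (hQ : finrank k Q = e ^ 2) (hco : Nat.Coprime d e)
    (h₁ : InCyclic P P') (h₂ : InCyclic P' P) (hd' : 0 < d') (hd'd : d' < d) (hdvd : d' ∣ d)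
    (he' : 0 < e') (he'e : e' < e) (hedvd : e' ∣ e) :
    ∃ (F : Type u) (_ : Field F) (_ : Algebra k F),
      H72.SB.IsFunctionField A (d' * e') F ∧ H72.SB.IsFunctionField A' (d' * e') F := by
  obtain ⟨e'', rfl⟩ := hedvd
  have he'' : 1 < e'' := by
    by_contra hcon
    push Not at hcon
    have : e' * e'' ≤ e' * 1 := Nat.mul_le_mul_left _ hcon
    omega
  -- `κ = e' κ'`
  obtain ⟨κ', hκ'⟩ : ∃ κ', κ' = (d' * d) % e'' := ⟨_, rfl⟩
  obtain ⟨r, hr⟩ : ∃ r, r = (d' * d) / e'' := ⟨_, rfl⟩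
  have hdiv : d' * d = r * e'' + κ' := by
    rw [hr, hκ', mul_comm ((d' * d) / e'')]; exact (Nat.div_add_mod _ _).symm
  have hκ'e : κ' < e'' := by rw [hκ']; exact Nat.mod_lt _ (by omega)
  have hcode : Nat.Coprime d e'' := hco.coprime_dvd_right ⟨e', mul_comm _ _⟩
  have hcod' : Nat.Coprime d' e'' := hcode.coprime_dvd_left hdvd
  have hcop : Nat.gcd κ' e'' = 1 := by
    rw [hκ', ← Nat.gcd_rec, Nat.gcd_comm]
    exact Nat.Coprime.mul_left hcod' hcode
  have hκ'0 : 0 < κ' := by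
    rcases Nat.eq_zero_or_pos κ' with h0 | h0
    · rw [h0, Nat.gcd_zero_left] at hcop; omega
    · exact h0
  have hrel : d' * e' * d = r * (e' * e'') + e' * κ' := by
    calc d' * e' * d = e' * (d' * d) := by ring
      _ = r * (e' * e'') + e' * κ' := by rw [hdiv]; ring
  have hκe : e' * κ' < e' * e'' := Nat.mul_lt_mul_of_pos_left hκ'e he'
  have hκ1 : 1 ≤ e' * κ' := Nat.mul_pos he' hκ'0
  have hgcd : Nat.gcd (e' * κ') (e' * e'') = e' := by rw [Nat.gcd_mul_left, hcop, mul_one]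
  -- the function fields of `SB_{e'}(Q)` and `SB_κ(Q)`
  obtain ⟨F₁, _, _, hF₁⟩ := exists_functionField Q hQ he'e.le
  have hF₁' : H72.SB.IsFunctionField Q (Nat.gcd (e' * κ') (e' * e'')) F₁ := by rw [hgcd]; exact hF₁
  have hK := functionField_gcd Q hQ hκ1 hκe hF₁'
  rw [hgcd] at hK
  obtain ⟨N₁, hN₁⟩ : ∃ N₁, N₁ = e' * κ' * (e' * e'' - e' * κ') - e' * (e' * e'' - e') := ⟨_, rfl⟩
  rw [← hN₁] at hK
  let K := FractionRing (MvPolynomial (Fin N₁) F₁)
  have hKinf : Infinite K := Infinite.of_injective _ (algebraMap k K).injective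
  -- the division of `K ⊗ Q`
  obtain ⟨⟨J₀, ⟨hJ₀, hdim⟩, _⟩, _⟩ := ofH72 hQ hF₁
  have hdim1 : finrank K (ext K J₀) = e' * (e' * e'') := by
    rw [ext_finrank, hdim]
  obtain ⟨D, hD, ⟨fD⟩⟩ := exists_matrix_of_ideal K Q hQ rfl he' (by omega) (ext K J₀)
    (fun x hx y => ext_right hJ₀ hx y) hdim1
  let C : CSA.{u, u} K := mat κ' hκ'0.ne' D
  have hm0 : 0 < d' * e' := Nat.mul_pos hd' he'
  have hmκ : d' * e' ≤ d * (e' * κ') := by
    calc d' * e' ≤ d * (e' * 1) := by rw [mul_one]; exact Nat.mul_le_mul_right _ hd'd.le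
      _ ≤ d * (e' * κ') := Nat.mul_le_mul_left _ (Nat.mul_le_mul_left _ hκ'0)
  have hcoe' : Nat.Coprime d e' := hco.coprime_dvd_right ⟨e'', rfl⟩
  have hPK : finrank K (bcr K P) = d ^ 2 := by rw [← hP]; exact Module.finrank_baseChange
  have hPK' : finrank K (bcr K P') = d ^ 2 := by rw [← hP']; exact Module.finrank_baseChange
  have hineq := arith_vars hd' hd'd he' (by omega) hκ'0 hrel hκe
  obtain ⟨N₃, hN₃⟩ : ∃ N₃, N₃ = d' * e' * (κ' * (d * e') - d' * e') - d' * (d - d') := ⟨_, rfl⟩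
  obtain ⟨N₄, hN₄⟩ : ∃ N₄, N₄ = r * (e' * e'') * (e' * e'' - e' * κ') := ⟨_, rfl⟩
  rw [← hN₃, ← hN₄] at hineq
  obtain ⟨F, i1, i2, F', i3, i4, hF, hF', ⟨f⟩⟩ := swapD (bcr K P) (bcr K P') (g := d')
    (N := N₃ + N₄) hPK hPK' (inCyclic_base K h₁) (inCyclic_base K h₂) hd' hdvd (by omega) hineq
  -- the two sides
  have side : ∀ (A P : CSA.{u, u} k) (_ : A ≃ₐ[k] P ⊗[k] Q) (_ : finrank k P = d ^ 2)
      (F : Type u) [Field F] [Algebra K F] (_ : H72.SB.IsFunctionField (bcr K P) d' F)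
      [Algebra k F] [IsScalarTower k K F],
      H72.SB.IsFunctionField A (d' * e') (FractionRing (MvPolynomial (Fin (N₃ + N₄)) F)) := by
    intro A P eA hP F _ _ hF _ _
    have hPK : finrank K (bcr K P) = d ^ 2 := by rw [← hP]; exact Module.finrank_baseChange
    have h1 := functionField_fibre (ten (bcr K P) C) (bcr K P) D (κ := κ') AlgEquiv.refl hPK hD
      hcoe' he' hκ'0 hd' hd'd hdvd hF
    rw [← hN₃] at h1
    have h2 := Pool.Agent.H49.Cop.fibration A P Q eA D (ten (bcr K P) C) hP hQ rfl he' hD fD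
      hκ'0 hκ'e.le hK AlgEquiv.refl h1 (r := r) (N := N₄) (by rw [hrel, add_comm]) hmκ
      (by rw [hN₄]; exact arith_dim hrel hκe.le hmκ)
    obtain ⟨g⟩ := nonempty_equiv_tower k F N₃ N₄
    exact h2.congr_field g.symm
  let _ : Algebra k F := ((algebraMap K F).comp (algebraMap k K)).toAlgebra
  have _ : IsScalarTower k K F := IsScalarTower.of_algebraMap_eq fun _ => rfl
  let _ : Algebra k F' := ((algebraMap K F').comp (algebraMap k K)).toAlgebra
  have _ : IsScalarTower k K F' := IsScalarTower.of_algebraMap_eq fun _ => rfl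
  have hA := side A P eA hP F hF
  have hA' := side A' P' eA' hP' F' hF'
  have f' : FractionRing (MvPolynomial (Fin (N₃ + N₄)) F) ≃ₐ[k]
      FractionRing (MvPolynomial (Fin (N₃ + N₄)) F') := f.restrictScalars k
  exact ⟨_, _, _, hA, hA'.congr_field f'.symm⟩

end Pool.Agent.H72.Br
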