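import Pool.Agent.H72.Br.Tens
import Pool.Agent.H72.Br.Base

/-!
# Exterior powers, the primary decomposition
-/

set_option autoImplicit false

open Module Matrix TensorProduct
open Pool.Agent.H72.SB hiding IsFunctionField

namespace Pool.Agent.H72.Br

open Pool.Agent.H49.GSB Pool.Agent.H49.Cyc

universe u

variable {k : Type u} [Field k]

/-- A representation of degree `N` gives a basis of the matrix algebra. -/
theorem exists_beta {Ω : Type u} [Field Ω] [Algebra k Ω] (B : CSA.{u, u} k) {N : ℕ}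
    (hB : finrank k B = N ^ 2) (σ : B →ₐ[k] Matrix (Fin N) (Fin N) Ω) :
    ∃ (b : Basis (Fin (N ^ 2)) k B) (β : Basis (Fin (N ^ 2)) Ω (Matrix (Fin N) (Fin N) Ω)),
      ∀ i, β i = σ (b i) := by
  have hs : IsSimpleRing (Ω ⊗[k] B) := isSimpleRing_tensor k Ω B
  have hN : N ≠ 0 := by
    rintro rfl
    have : 0 < finrank k B := Module.finrank_pos
    rw [hB] at this
    norm_num at this
  have : Nonempty (Fin N) := ⟨⟨0, Nat.pos_of_ne_zero hN⟩⟩
  let T : Ω ⊗[k] B →ₗ[Ω] Matrix (Fin N) (Fin N) Ω :=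
    { toFun := toMat (AlgHom.id k Ω) σ
      map_add' := fun x y => map_add _ x y
      map_smul' := fun c x => toMat_smul (AlgHom.id k Ω) σ c x }
  have hinj : Function.Injective T := (toMat (AlgHom.id k Ω) σ).toRingHom.injective
  have hdim : finrank Ω (Ω ⊗[k] B) = finrank Ω (Matrix (Fin N) (Fin N) Ω) := by
    rw [Module.finrank_baseChange, hB, Module.finrank_matrix, Fintype.card_fin, finrank_self]
    ring
  have hbij : Function.Bijective T :=
    ⟨hinj, (LinearMap.injective_iff_surjective_of_finrank_eq_finrank hdim).1 hinj⟩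
  let b : Basis (Fin (N ^ 2)) k B := finBasisOfFinrankEq k B hB
  refine ⟨b, (Algebra.TensorProduct.basis Ω b).map (LinearEquiv.ofBijective T hbij), fun i => ?_⟩
  rw [Basis.map_apply, Algebra.TensorProduct.basis_apply]
  change toMat (AlgHom.id k Ω) σ (1 ⊗ₜ b i) = σ (b i)
  unfold toMat
  rw [Algebra.TensorProduct.lift_tmul, map_one, one_mul]

/-- A rational subspace of dimension `l` gives an algebra of degree `l` in the class. -/
theorem hasDeg_of_rat [Infinite k] {Ω : Type u} [Field Ω] [Algebra k Ω] [IsAlgClosed Ω]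
    (B : CSA.{u, u} k) {N : ℕ} (hB : finrank k B = N ^ 2)
    {σ : B →ₐ[k] Matrix (Fin N) (Fin N) Ω} {b : Basis (Fin (N ^ 2)) k B}
    {β : Basis (Fin (N ^ 2)) Ω (Matrix (Fin N) (Fin N) Ω)} (hβ : ∀ i, β i = σ (b i))
    {U : Submodule Ω (Fin N → Ω)} {l : ℕ} (hl : finrank Ω U = l) (hl0 : 0 < l)
    (hU : RatR β (⊥ : IntermediateField k Ω) U) : HasDeg (cls B) l := by
  have hN : 0 < N := by
    have h1 : finrank Ω U ≤ finrank Ω (Fin N → Ω) := Submodule.finrank_le U
    rw [hl, Module.finrank_fin_fun] at h1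
    omega
  obtain ⟨δ, hδ⟩ := exists_index ⟨B, rfl, hB⟩ hN
  obtain ⟨-, -, D, hD, hDδ, hdiv⟩ := id hδ
  rw [hδ.2.1 l hl0]
  obtain ⟨r, L, hL, hfin, hsum, hL1⟩ := exists_fields (isForm_of_rho hβ) hl hl0 hU
  rw [← hsum]
  refine Finset.dvd_sum fun j _ => ?_
  obtain ⟨U', hU', hUr'⟩ := hL1 j
  have hBD : InCyclic B D := inCyclic_iff.2 ⟨1, by rw [zpow_one, hD]⟩
  have h1 : SplitBy k D (L j) := SplitBy.of_inCyclic hBD (splitBy_of_ratR hβ hU' hUr')
  have h2 : finrank (⊥ : IntermediateField k Ω) (IntermediateField.extendScalars (hL j)) =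
      finrank k (L j) := by
    have h3 := Module.finrank_mul_finrank k (⊥ : IntermediateField k Ω)
      (IntermediateField.extendScalars (hL j))
    rw [IntermediateField.finrank_bot, one_mul] at h3
    rw [h3]
    rfl
  have h4 : FiniteDimensional k (L j) := by
    have h5 := hfin j
    have h6 : FiniteDimensional k (⊥ : IntermediateField k Ω) := inferInstance
    have h7 : FiniteDimensional k (IntermediateField.extendScalars (hL j)) :=
      Module.Finite.trans (⊥ : IntermediateField k Ω) _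
    exact h7
  rw [h2]
  exact dvd_of_splitBy hdiv hDδ h1

/-- Exterior powers. -/
theorem extPow [Infinite k] : ExtPow k := by
  intro c n r hc hr hn
  obtain ⟨A, rfl, hA⟩ := hc
  obtain ⟨Ω, _, _, _, -⟩ := exists_omega k 0
  obtain ⟨ρ, b, β, hρ, -⟩ := exists_form (Ω := Ω) A hA
  obtain ⟨c, hc⟩ := exists_goldman hρ
  obtain ⟨B, σ, hBc, hB, hx⟩ := exists_tens A hA ρ r
  have hanti : anti Ω n r ∈ σ.range := by
    refine anti_mem σ.range (fun a => ?_) hc
    obtain ⟨x, hx⟩ := hx a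
    refine ⟨x, ?_⟩
    ext f g
    exact hx f g
  obtain ⟨x, hx⟩ := hanti
  let e : (Fin r → Fin n) ≃ Fin (n ^ r) := finFunctionFinEquiv
  let σ' : B →ₐ[k] Matrix (Fin (n ^ r)) (Fin (n ^ r)) Ω :=
    (Matrix.reindexAlgEquiv k Ω e).toAlgHom.comp σ
  obtain ⟨bB, βB, hβB⟩ := exists_beta B hB σ'
  have hX : σ' x = Matrix.reindex e e (anti Ω n r) := by
    change (Matrix.reindexAlgEquiv k Ω e) (σ x) = _
    have h1 : σ x = anti Ω n r := hx
    rw [h1]
    rfl
  have hrat : RatR βB (⊥ : IntermediateField k Ω) (colS (σ' x)) :=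
    ratR_colS (isForm_of_rho hβB) (ratV_rho hβB x)
  have hdim : finrank Ω (colS (σ' x)) = n.choose r := by
    have h1 : finrank Ω (colS (σ' x)) = (σ' x).rank := rfl
    rw [h1, hX, Matrix.rank_reindex, rank_anti]
  rw [← hBc]
  exact hasDeg_of_rat B hB hβB hdim (Nat.choose_pos hr) hrat

/-- The classes of the factors. -/
theorem cls_of_tensor {A P Q : CSA.{u, u} k} (e : A ≃ₐ[k] P ⊗[k] Q) : cls A = cls P * cls Q := by
  rw [← cls_ten]
  exact cls_congr (A := A) (B := ten P Q) e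

/-- T3: the primary decomposition of a central simple algebra of degree `d e`. -/
theorem exists_factors [Infinite k] (A : CSA.{u, u} k) {d e : ℕ} (hA : finrank k A = (d * e) ^ 2)
    (hd : 0 < d) (he : 0 < e) (hco : Nat.Coprime d e) :
    ∃ P Q : CSA.{u, u} k, finrank k P = d ^ 2 ∧ finrank k Q = e ^ 2 ∧
      Nonempty (A ≃ₐ[k] P ⊗[k] Q) ∧ InCyclic A P ∧ InCyclic A Q := by
  obtain ⟨u, v, huv⟩ : ∃ u v : ℤ, u * d + v * e = 1 := Nat.isCoprime_iff_coprime.2 hco
  obtain ⟨⟨P, hPc, hP⟩, ⟨Q, hQc, hQ⟩⟩ :=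
    exists_primary extPow (c := cls A) ⟨A, rfl, hA⟩ hd he hco u v huv
  refine ⟨P, Q, hP, hQ, ?_, inCyclic_iff.2 ⟨_, hPc⟩, inCyclic_iff.2 ⟨_, hQc⟩⟩
  refine equiv_of_brauer (B := A) (C := ten P Q) (cls_eq.1 ?_) ?_
  · rw [cls_ten, hPc, hQc, ← _root_.zpow_add, add_comm, huv, zpow_one]
  · have h1 : finrank k (ten P Q) = finrank k P * finrank k Q := Module.finrank_tensorProduct
    rw [h1, hA, hP, hQ]
    ring

/-- The `d`-part of a class `p * q`, where `p` has degree `d` and `q` has degree `e`. -/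
theorem pow_index_eq_one [Infinite k] {c : BrG k} {d : ℕ} (h : HasDeg c d) (hd : 0 < d) :
    c ^ d = 1 := by
  have h1 := extPow c d d h le_rfl hd
  rw [Nat.choose_self] at h1
  obtain ⟨B, hB, hB1⟩ := h1
  rw [← hB, ← cls_unit]
  refine cls_eq.2 ?_
  have h2 : finrank k B = 1 := by rw [hB1]; norm_num
  have h3 : Function.Bijective (algebraMap k B) := by
    refine ⟨(algebraMap k B).injective, ?_⟩
    have h4 : finrank k k = finrank k B := by rw [h2, finrank_self]
    exact (LinearMap.injective_iff_surjective_of_finrank_eq_finrank h4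
      (f := (Algebra.linearMap k B))).1 (algebraMap k B).injective
  exact (brauer_of_equiv (B := unit k) (C := B)
    (AlgEquiv.ofBijective (Algebra.ofId k B) h3)).symm

/-- If `A = P ⊗ Q` with coprime degrees then `P` and `Q` are in the subgroup generated by `A`. -/
theorem inCyclic_factors [Infinite k] {A P Q : CSA.{u, u} k} {d e : ℕ}
    (f : A ≃ₐ[k] P ⊗[k] Q) (hP : finrank k P = d ^ 2) (hQ : finrank k Q = e ^ 2) (hd : 0 < d)
    (he : 0 < e) (hco : Nat.Coprime d e) (u v : ℤ) (huv : u * d + v * e = 1) :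
    cls P = cls A ^ (v * e) ∧ cls Q = cls A ^ (u * d) := by
  have hc := cls_of_tensor f
  have h1 : cls P ^ d = 1 := pow_index_eq_one ⟨P, rfl, hP⟩ hd
  have h2 : cls Q ^ e = 1 := pow_index_eq_one ⟨Q, rfl, hQ⟩ he
  have h3 : cls P ^ (u * d : ℤ) = 1 := by
    rw [mul_comm, _root_.zpow_mul, zpow_natCast, h1, _root_.one_zpow]
  have h4 : cls Q ^ (v * e : ℤ) = 1 := by
    rw [mul_comm, _root_.zpow_mul, zpow_natCast, h2, _root_.one_zpow]
  constructor
  · rw [hc, mul_zpow, h4, mul_one]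
    have h5 : (v * e : ℤ) = 1 - u * d := by linarith
    rw [h5, _root_.zpow_sub, h3, zpow_one, inv_one, mul_one]
  · rw [hc, mul_zpow, h3, one_mul]
    have h5 : (u * d : ℤ) = 1 - v * e := by linarith
    rw [h5, _root_.zpow_sub, h4, zpow_one, inv_one, mul_one]

/-- The factors of algebras which generate the same subgroup generate the same subgroups. -/
theorem inCyclic_factors_of_inCyclic [Infinite k] {A B P P' Q Q' : CSA.{u, u} k} {d e : ℕ}
    (eA : A ≃ₐ[k] P ⊗[k] Q) (eB : B ≃ₐ[k] P' ⊗[k] Q') (hP : finrank k P = d ^ 2)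
    (hP' : finrank k P' = d ^ 2) (hQ : finrank k Q = e ^ 2) (hQ' : finrank k Q' = e ^ 2)
    (hd : 0 < d) (he : 0 < e) (hco : Nat.Coprime d e) (h : InCyclic A B) :
    InCyclic P P' ∧ InCyclic Q Q' := by
  obtain ⟨u, v, huv⟩ : ∃ u v : ℤ, u * d + v * e = 1 := Nat.isCoprime_iff_coprime.2 hco
  obtain ⟨hp, hq⟩ := inCyclic_factors eA hP hQ hd he hco u v huv
  obtain ⟨hp', hq'⟩ := inCyclic_factors eB hP' hQ' hd he hco u v huv
  obtain ⟨i, hi⟩ := inCyclic_iff.1 h
  constructor
  · refine inCyclic_iff.2 ⟨i, ?_⟩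
    rw [hp', hi, hp, ← _root_.zpow_mul, ← _root_.zpow_mul, mul_comm]
  · refine inCyclic_iff.2 ⟨i, ?_⟩
    rw [hq', hi, hq, ← _root_.zpow_mul, ← _root_.zpow_mul, mul_comm]

end Pool.Agent.H72.Br
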