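import Pool.Agent.H49.Cyc.BrE

/-!
# The Brauer group
-/

set_option autoImplicit false

open Module TensorProduct Matrix MulOpposite
open Pool.Agent.H72.SB hiding IsFunctionField

namespace Pool.Agent.H72.Br

open Pool.Agent.H49.GSB Pool.Agent.H49.Cyc

universe u

variable {k : Type u} [Field k]

/-- The center of a tensor product with a central algebra. -/
theorem center_tensor (A B : Type u) [Ring A] [Algebra k A] [Ring B] [Algebra k B]
    [Algebra.IsCentral k A] {x : A ⊗[k] B} (hx : ∀ z, z * x = x * z) : ∃ y : B, x = 1 ⊗ₜ y := by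
  classical
  let b := Module.Basis.ofVectorSpace k B
  let bA := Algebra.TensorProduct.basis A b
  have hr : ∀ (x : A ⊗[k] B) (a : A) (i), bA.repr (x * (a ⊗ₜ 1)) i = bA.repr x i * a := by
    intro x a i
    induction x using TensorProduct.induction_on with
    | zero => simp
    | tmul c y =>
      rw [Algebra.TensorProduct.tmul_mul_tmul, mul_one, Algebra.TensorProduct.basis_repr_tmul,
        Algebra.TensorProduct.basis_repr_tmul]
      simp only [Finsupp.smul_apply, Finsupp.mapRange_apply, smul_eq_mul]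
      rw [mul_assoc, mul_assoc, Algebra.commutes]
    | add y z hy hz => rw [add_mul, map_add, Finsupp.add_apply, hy, hz, map_add,
        Finsupp.add_apply, add_mul]
  have hl : ∀ (a : A) (i), bA.repr ((a ⊗ₜ 1) * x) i = a * bA.repr x i := by
    intro a i
    have h1 : ∀ x : A ⊗[k] B, ((a ⊗ₜ 1 : A ⊗[k] B)) * x = a • x := by
      intro x
      induction x using TensorProduct.induction_on with
      | zero => simp
      | tmul c y => rw [Algebra.TensorProduct.tmul_mul_tmul, one_mul, TensorProduct.smul_tmul',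
          smul_eq_mul]
      | add y z hy hz => rw [mul_add, hy, hz, smul_add]
    rw [h1, map_smul, Finsupp.smul_apply, smul_eq_mul]
  have hc : ∀ i, ∃ c : k, algebraMap k A c = bA.repr x i := by
    intro i
    have h1 : bA.repr x i ∈ Subalgebra.center k A := by
      rw [Subalgebra.mem_center_iff]
      intro a
      rw [← hl, ← hr, hx]
    exact Algebra.mem_bot.1 (Algebra.IsCentral.out h1)
  choose c hc using hc
  refine ⟨∑ i ∈ (bA.repr x).support, c i • b i, ?_⟩
  conv_lhs => rw [← bA.linearCombination_repr x]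
  rw [Finsupp.linearCombination_apply, Finsupp.sum, TensorProduct.tmul_sum]
  refine Finset.sum_congr rfl fun i _ => ?_
  rw [Algebra.TensorProduct.basis_apply, ← hc i, TensorProduct.smul_tmul', smul_eq_mul, mul_one,
    Algebra.algebraMap_eq_smul_one, TensorProduct.smul_tmul]

/-- The tensor product of central algebras is central. -/
theorem isCentral_tensor (A B : Type u) [Ring A] [Algebra k A] [Ring B] [Algebra k B]
    [Algebra.IsCentral k A] [Algebra.IsCentral k B] [Nontrivial A] :
    Algebra.IsCentral k (A ⊗[k] B) := by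
  constructor
  intro x hx
  rw [Subalgebra.mem_center_iff] at hx
  obtain ⟨y, rfl⟩ := center_tensor A B hx
  have hinj : Function.Injective (Algebra.TensorProduct.includeRight : B →ₐ[k] A ⊗[k] B) :=
    Algebra.TensorProduct.includeRight_injective (algebraMap k A).injective
  have hy : y ∈ Subalgebra.center k B := by
    rw [Subalgebra.mem_center_iff]
    intro z
    apply hinj
    rw [map_mul, map_mul]
    exact hx _
  obtain ⟨d, hd⟩ := Algebra.mem_bot.1 (Algebra.IsCentral.out hy)
  refine Algebra.mem_bot.2 ⟨d, ?_⟩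
  rw [← hd, Algebra.algebraMap_eq_smul_one, Algebra.algebraMap_eq_smul_one, tmul_smul]
  rfl

/-- The tensor product. -/
def ten (A B : CSA.{u, u} k) : CSA.{u, u} k :=
  haveI := isCentral_tensor (k := k) A B
  haveI : IsSimpleRing (A ⊗[k] B) := isSimple_tensor_ring
  { carrier := A ⊗[k] B }

/-- The opposite algebra. -/
def opp (A : CSA.{u, u} k) : CSA.{u, u} k := { carrier := (A : Type u)ᵐᵒᵖ }

variable (k) in
/-- The base field. -/
def unit : CSA.{u, u} k := { carrier := k }

theorem ten_congr {A A' B B' : CSA.{u, u} k} (hA : IsBrauerEquivalent A A')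
    (hB : IsBrauerEquivalent B B') : IsBrauerEquivalent (ten A B) (ten A' B') := by
  obtain ⟨n, m, hn, hm, ⟨e⟩⟩ := hA
  obtain ⟨p, q, hp, hq, ⟨f⟩⟩ := hB
  refine ⟨n * p, m * q, Nat.mul_ne_zero hn hp, Nat.mul_ne_zero hm hq, ⟨?_⟩⟩
  exact (Matrix.reindexAlgEquiv k (A ⊗[k] B) finProdFinEquiv).symm.trans
    ((Matrix.kroneckerTMulAlgEquiv (Fin n) (Fin p) k k A B).symm.trans
      ((Algebra.TensorProduct.congr e f).trans
        ((Matrix.kroneckerTMulAlgEquiv (Fin m) (Fin q) k k A' B').trans
          (Matrix.reindexAlgEquiv k (A' ⊗[k] B') finProdFinEquiv))))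

theorem ten_assoc (A B C : CSA.{u, u} k) :
    IsBrauerEquivalent (ten (ten A B) C) (ten A (ten B C)) :=
  brauer_of_equiv (B := ten (ten A B) C) (C := ten A (ten B C))
    (Algebra.TensorProduct.assoc k k k A B C)

theorem ten_comm (A B : CSA.{u, u} k) : IsBrauerEquivalent (ten A B) (ten B A) :=
  brauer_of_equiv (B := ten A B) (C := ten B A) (Algebra.TensorProduct.comm k A B)

theorem unit_ten (A : CSA.{u, u} k) : IsBrauerEquivalent (ten (unit k) A) A :=
  brauer_of_equiv (B := ten (unit k) A) (C := A) (Algebra.TensorProduct.lid k A)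

theorem ten_opp (A : CSA.{u, u} k) : IsBrauerEquivalent (ten A (opp A)) (unit k) := by
  have hs : IsSimpleRing (A ⊗[k] (A : Type u)ᵐᵒᵖ) := (ten A (opp A)).isSimple
  have hinj : Function.Injective (AlgHom.mulLeftRight k A) :=
    (AlgHom.mulLeftRight k A).toRingHom.injective
  have hdim : finrank k (A ⊗[k] (A : Type u)ᵐᵒᵖ) = finrank k (Module.End k A) := by
    rw [Module.finrank_tensorProduct, Module.finrank_linearMap]
    congr 1
    exact (MulOpposite.opLinearEquiv k).finrank_eq.symm
  have hbij : Function.Bijective (AlgHom.mulLeftRight k A) :=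
    ⟨hinj, (LinearMap.injective_iff_surjective_of_finrank_eq_finrank hdim
      (f := (AlgHom.mulLeftRight k A).toLinearMap)).1 hinj⟩
  let b := Module.finBasis k A
  have e : (ten A (opp A)) ≃ₐ[k] Matrix (Fin (finrank k A)) (Fin (finrank k A)) (unit k) :=
    (AlgEquiv.ofBijective _ hbij).trans (LinearMap.toMatrixAlgEquiv b)
  exact (brauer_of_matrix (A := ten A (opp A)) (D := unit k) (finrank_pos (R := k) (M := A)).ne' e).symm

/-- The Brauer group. -/
def BrG (k : Type u) [Field k] : Type (u + 1) := Quotient (Brauer.CSA_Setoid.{u, u} k)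

/-- The class of an algebra. -/
def cls (A : CSA.{u, u} k) : BrG k := Quotient.mk (Brauer.CSA_Setoid.{u, u} k) A

theorem cls_eq {A B : CSA.{u, u} k} : cls A = cls B ↔ IsBrauerEquivalent A B :=
  ⟨fun h => Quotient.exact h, fun h => Quotient.sound h⟩

theorem exists_cls (c : BrG k) : ∃ A : CSA.{u, u} k, cls A = c := Quotient.exists_rep c

theorem cls_out (c : BrG k) : cls (Quotient.out c : CSA.{u, u} k) = c := Quotient.out_eq c

noncomputable instance : CommGroup (BrG k) where
  mul := Quotient.map₂ ten (fun _ _ h _ _ h' => ten_congr h h')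
  mul_assoc := by
    rintro ⟨A⟩ ⟨B⟩ ⟨C⟩
    exact Quotient.sound (ten_assoc A B C)
  one := cls (unit k)
  one_mul := by
    rintro ⟨A⟩
    exact Quotient.sound (unit_ten A)
  mul_one := by
    rintro ⟨A⟩
    exact Quotient.sound ((ten_comm A (unit k)).trans (unit_ten A))
  inv c := cls (opp (Quotient.out c))
  inv_mul_cancel := by
    intro c
    obtain ⟨A, rfl⟩ := exists_cls c
    have h : IsBrauerEquivalent (ten (opp (Quotient.out (cls A))) (Quotient.out (cls A)))
        (unit k) := (ten_comm _ _).trans (ten_opp _)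
    have h2 : IsBrauerEquivalent (ten (opp (Quotient.out (cls A))) A) (unit k) :=
      (ten_congr (IsBrauerEquivalent.refl _) (cls_eq.1 (cls_out (cls A)).symm)).trans h
    exact Quotient.sound h2
  mul_comm := by
    rintro ⟨A⟩ ⟨B⟩
    exact Quotient.sound (ten_comm A B)

theorem cls_ten (A B : CSA.{u, u} k) : cls (ten A B) = cls A * cls B := rfl

theorem cls_unit : cls (unit k) = 1 := rfl

theorem cls_opp (A : CSA.{u, u} k) : cls (opp A) = (cls A)⁻¹ := by
  rw [eq_inv_iff_mul_eq_one, mul_comm, ← cls_ten, ← cls_unit]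
  exact Quotient.sound (ten_opp A)

theorem cls_congr {A B : CSA.{u, u} k} (e : A ≃ₐ[k] B) : cls A = cls B :=
  cls_eq.2 (brauer_of_equiv e)

/-- The subgroup generated by a class. -/
theorem inCyclic_iff {A B : CSA.{u, u} k} :
    InCyclic A B ↔ ∃ i : ℤ, cls B = cls A ^ i := by
  constructor
  · intro h
    induction h with
    | self => exact ⟨1, (zpow_one _).symm⟩
    | one C e =>
      obtain ⟨e⟩ := e
      refine ⟨0, ?_⟩
      rw [zpow_zero, ← cls_unit]
      exact cls_congr (A := C) (B := unit k) e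
    | mul B C E _ _ e hB hC =>
      obtain ⟨e⟩ := e
      obtain ⟨i, hi⟩ := hB
      obtain ⟨j, hj⟩ := hC
      refine ⟨i + j, ?_⟩
      rw [_root_.zpow_add, ← hi, ← hj, ← cls_ten]
      exact cls_congr (A := E) (B := ten B C) e
    | inv B C _ e hB =>
      obtain ⟨e⟩ := e
      obtain ⟨i, hi⟩ := hB
      refine ⟨-i, ?_⟩
      rw [_root_.zpow_neg, ← hi, ← cls_opp]
      exact cls_congr (A := C) (B := opp B) e
    | equiv B C _ e hB =>
      obtain ⟨i, hi⟩ := hB
      exact ⟨i, by rw [← hi]; exact (cls_eq.2 e).symm⟩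
  · rintro ⟨i, hi⟩
    have hnat : ∀ j : ℕ, ∃ C : CSA.{u, u} k, InCyclic A C ∧ cls C = cls A ^ j := by
      intro j
      induction j with
      | zero => exact ⟨unit k, .one _ ⟨AlgEquiv.refl⟩, by rw [pow_zero, cls_unit]⟩
      | succ j ih =>
        obtain ⟨C, hC, hc⟩ := ih
        exact ⟨ten C A, .mul C A _ hC .self ⟨AlgEquiv.refl⟩, by rw [cls_ten, hc, pow_succ]⟩
    have hint : ∃ C : CSA.{u, u} k, InCyclic A C ∧ cls C = cls A ^ i := by
      obtain ⟨j, rfl | rfl⟩ := i.eq_nat_or_neg
      · obtain ⟨C, hC, hc⟩ := hnat j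
        exact ⟨C, hC, by rw [hc, zpow_natCast]⟩
      · obtain ⟨C, hC, hc⟩ := hnat j
        exact ⟨opp C, .inv C _ hC ⟨AlgEquiv.refl⟩, by rw [cls_opp, hc, _root_.zpow_neg, zpow_natCast]⟩
    obtain ⟨C, hC, hc⟩ := hint
    exact .equiv C B hC (cls_eq.1 (by rw [hc, hi]))

end Pool.Agent.H72.Br
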