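import Pool.Agent.H72.Br.Group
import Pool.Agent.H49.GSB.Final

/-!
# The index of a Brauer class
-/

set_option autoImplicit false

open Module TensorProduct Matrix
open Pool.Agent.H72.SB hiding IsFunctionField

namespace Pool.Agent.H72.Br

open Pool.Agent.H49.GSB Pool.Agent.H49.Cyc

universe u

variable {k : Type u} [Field k]

/-- The class `c` contains an algebra of degree `r`. -/
def HasDeg (c : BrG k) (r : ℕ) : Prop := ∃ B : CSA.{u, u} k, cls B = c ∧ finrank k B = r ^ 2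

theorem HasDeg.mul {c c' : BrG k} {r s : ℕ} (h : HasDeg c r) (h' : HasDeg c' s) :
    HasDeg (c * c') (r * s) := by
  obtain ⟨B, rfl, hB⟩ := h
  obtain ⟨B', rfl, hB'⟩ := h'
  refine ⟨ten B B', cls_ten _ _, ?_⟩
  have h1 : finrank k (ten B B') = finrank k B * finrank k B' := Module.finrank_tensorProduct
  rw [h1, hB, hB']
  ring

theorem hasDeg_one : HasDeg (1 : BrG k) 1 := ⟨unit k, cls_unit, by
  have h1 : finrank k (unit k) = 1 := Module.finrank_self k
  rw [h1]; norm_num⟩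

theorem HasDeg.pow' {c : BrG k} {r : ℕ} (h : HasDeg c r) (j : ℕ) : HasDeg (c ^ j) (r ^ j) := by
  induction j with
  | zero => exact hasDeg_one
  | succ j ih => rw [pow_succ, pow_succ]; exact ih.mul h

theorem HasDeg.inv {c : BrG k} {r : ℕ} (h : HasDeg c r) : HasDeg c⁻¹ r := by
  obtain ⟨B, rfl, hB⟩ := h
  refine ⟨opp B, cls_opp _, ?_⟩
  rw [← hB]
  exact (MulOpposite.opLinearEquiv k).finrank_eq.symm

/-- The matrix algebra. -/
def mat (r : ℕ) (hr : r ≠ 0) (D : CSA.{u, u} k) : CSA.{u, u} k :=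
  haveI : NeZero r := ⟨hr⟩
  { carrier := Matrix (Fin r) (Fin r) D }

theorem HasDeg.mul_left {c : BrG k} {r : ℕ} (h : HasDeg c r) {t : ℕ} (ht : t ≠ 0) :
    HasDeg c (t * r) := by
  obtain ⟨B, rfl, hB⟩ := h
  refine ⟨mat t ht B, ?_, ?_⟩
  · exact (cls_eq.2 (brauer_of_matrix (A := mat t ht B) (D := B) ht AlgEquiv.refl)).symm
  · have h1 : finrank k (mat t ht B) = Fintype.card (Fin t) * Fintype.card (Fin t) * finrank k B :=
      Module.finrank_matrix k B (Fin t) (Fin t)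
    rw [h1, hB, Fintype.card_fin]
    ring

/-- `δ` is the index of `c`. -/
def IsIndex (c : BrG k) (δ : ℕ) : Prop := 0 < δ ∧ (∀ r, 0 < r → (HasDeg c r ↔ δ ∣ r)) ∧
  ∃ D : CSA.{u, u} k, cls D = c ∧ finrank k D = δ ^ 2 ∧ ∀ x : D, x ≠ 0 → IsUnit x

theorem exists_index [Infinite k] {c : BrG k} {n : ℕ} (h : HasDeg c n) (hn : 0 < n) :
    ∃ δ, IsIndex c δ := by
  obtain ⟨A, rfl, hA⟩ := h
  obtain ⟨r, D, hr, hdiv, ⟨e⟩⟩ := exists_division A
  obtain ⟨d, hd, -, hD⟩ := exists_degree hA hr hn e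
  have hc : cls D = cls A := cls_eq.2 (brauer_of_matrix hr e)
  refine ⟨d, hd, fun s hs => ⟨fun h => ?_, fun h => ?_⟩, D, hc, hD, hdiv⟩
  · obtain ⟨B, hBc, hB⟩ := h
    obtain ⟨r', D', hr', hdiv', ⟨e'⟩⟩ := exists_division B
    obtain ⟨d', hd', hs', hD'⟩ := exists_degree hB hr' hs e'
    have hc' : cls D' = cls B := cls_eq.2 (brauer_of_matrix hr' e')
    have h1 : d ∣ d' := deg_dvd hdiv hD' hD hd'
      (inCyclic_iff.2 ⟨1, by rw [zpow_one, hc, hc', hBc]⟩)
    rw [hs']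
    exact h1.mul_left r'
  · obtain ⟨t, rfl⟩ := h
    have ht : t ≠ 0 := by rintro rfl; omega
    rw [mul_comm]
    exact HasDeg.mul_left ⟨D, hc, hD⟩ ht

theorem IsIndex.zpow [Infinite k] {c : BrG k} {δ δ' : ℕ} {j : ℤ} (h : IsIndex c δ)
    (h' : IsIndex (c ^ j) δ') : δ' ∣ δ := by
  obtain ⟨hδ, -, D, hD, hD1, hD2⟩ := h
  obtain ⟨hδ', -, D', hD', hD1', hD2'⟩ := h'
  exact deg_dvd hD2' hD1 hD1' hδ (inCyclic_iff.2 ⟨j, by rw [hD, hD']⟩)

theorem HasDeg.zpow [Infinite k] {c : BrG k} {n : ℕ} (h : HasDeg c n) (hn : 0 < n) (j : ℤ) :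
    HasDeg (c ^ j) n := by
  obtain ⟨δ, hδ⟩ := exists_index h hn
  have h1 : ∃ s, 0 < s ∧ HasDeg (c ^ j) s := by
    obtain ⟨i, rfl | rfl⟩ := j.eq_nat_or_neg
    · exact ⟨n ^ i, Nat.pow_pos hn, by rw [zpow_natCast]; exact h.pow' i⟩
    · exact ⟨n ^ i, Nat.pow_pos hn, by
        rw [_root_.zpow_neg, zpow_natCast]; exact (h.pow' i).inv⟩
  obtain ⟨s, hs, h1⟩ := h1
  obtain ⟨δ', hδ'⟩ := exists_index h1 hs
  exact (hδ'.2.1 n hn).2 ((hδ.zpow hδ').trans ((hδ.2.1 n hn).1 h))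

theorem HasDeg.gcd [Infinite k] {c : BrG k} {r s : ℕ} (h : HasDeg c r) (h' : HasDeg c s)
    (hr : 0 < r) (hs : 0 < s) : HasDeg c (Nat.gcd r s) := by
  obtain ⟨δ, hδ⟩ := exists_index h hr
  exact (hδ.2.1 _ (Nat.gcd_pos_of_pos_left _ hr)).2
    (Nat.dvd_gcd ((hδ.2.1 r hr).1 h) ((hδ.2.1 s hs).1 h'))

/-- The input from exterior powers. -/
def ExtPow (k : Type u) [Field k] : Prop :=
  ∀ (c : BrG k) (n r : ℕ), HasDeg c n → r ≤ n → 0 < n → HasDeg (c ^ r) (n.choose r)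

theorem choose_prime_pow {p a n : ℕ} (hp : p.Prime) (h : p ^ a ∣ n) (h' : ¬ p ^ (a + 1) ∣ n) :
    ¬ p ∣ n.choose (p ^ a) := by
  have hn : 0 < n := Nat.pos_of_ne_zero (by rintro rfl; exact h' (dvd_zero _))
  obtain ⟨m, rfl⟩ := h
  have hm : ¬ p ∣ m := by
    intro h1
    apply h'
    rw [pow_succ]
    exact Nat.mul_dvd_mul_left _ h1
  have hm0 : 0 < m := Nat.pos_of_mul_pos_left hn
  -- `(p^a m) choose (p^a) ≡ m (mod p)` by Lucas
  have : Fact p.Prime := ⟨hp⟩
  have h1 : (p ^ a * m).choose (p ^ a * 1) ≡ m.choose 1 [MOD p] := by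
    induction a with
    | zero => simp only [pow_zero, one_mul]; exact Nat.ModEq.refl _
    | succ a ih =>
      have h2 : (p ^ (a + 1) * m).choose (p ^ (a + 1) * 1) ≡
          (p ^ a * m).choose (p ^ a * 1) [MOD p] := by
        have h3 := Choose.choose_modEq_choose_mod_mul_choose_div_nat (p := p)
          (n := p ^ (a + 1) * m) (k := p ^ (a + 1) * 1)
        have h4 : p ^ (a + 1) * m % p = 0 := by
          rw [pow_succ', mul_assoc]; exact Nat.mul_mod_right _ _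
        have h5 : p ^ (a + 1) * 1 % p = 0 := by
          rw [pow_succ', mul_assoc]; exact Nat.mul_mod_right _ _
        have h6 : p ^ (a + 1) * m / p = p ^ a * m := by
          rw [pow_succ', mul_assoc]; exact Nat.mul_div_cancel_left _ hp.pos
        have h7 : p ^ (a + 1) * 1 / p = p ^ a * 1 := by
          rw [pow_succ', mul_assoc]; exact Nat.mul_div_cancel_left _ hp.pos
        rw [h4, h5, h6, h7, Nat.choose_self, one_mul] at h3
        exact h3
      refine h2.trans (ih ?_ ?_)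
      · intro h8
        apply h'
        have h9 : p ^ (a + 1 + 1) = p * p ^ (a + 1) := pow_succ' _ _
        have h10 : p ^ (a + 1) * m = p * (p ^ a * m) := by rw [pow_succ', mul_assoc]
        rw [h9, h10]
        exact Nat.mul_dvd_mul_left p h8
      · exact Nat.mul_pos (pow_pos hp.pos a) hm0
  rw [mul_one, Nat.choose_one_right] at h1
  intro h2
  exact hm ((h1.dvd_iff (dvd_refl p)).1 h2)

/-- If `d` and `e` are coprime and `c` has degree `d e` then `c ^ e` has degree `d`. -/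
theorem hasDeg_pow_coprime [Infinite k] (hE : ExtPow k) {c : BrG k} {d e : ℕ}
    (h : HasDeg c (d * e)) (hd : 0 < d) (he : 0 < e) (hco : Nat.Coprime d e) :
    HasDeg (c ^ e) d := by
  have hn : 0 < d * e := Nat.mul_pos hd he
  have h1 : HasDeg (c ^ e) (d * e) := by
    have := h.zpow hn (e : ℤ)
    rwa [zpow_natCast] at this
  obtain ⟨δ, hδ⟩ := exists_index h1 hn
  rw [hδ.2.1 d hd]
  have h2 : Nat.Coprime δ e := by
    apply Nat.Coprime.symm
    rw [Nat.coprime_iff_gcd_eq_one, Nat.eq_one_iff_not_exists_prime_dvd]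
    intro p hp hpg
    have hpe : p ∣ e := hpg.trans (Nat.gcd_dvd_left _ _)
    have hpδ : p ∣ δ := hpg.trans (Nat.gcd_dvd_right _ _)
    obtain ⟨a, e', he', rfl⟩ := Nat.exists_eq_pow_mul_and_not_dvd he.ne' p hp.ne_one
    have hpd : ¬ p ∣ d := fun h0 => hp.one_lt.ne' (Nat.eq_one_of_dvd_coprimes hco h0 hpe)
    have hdvd : p ^ a ∣ d * (p ^ a * e') := (Nat.dvd_mul_right _ _).mul_left d
    have hndvd : ¬ p ^ (a + 1) ∣ d * (p ^ a * e') := by
      intro h0
      have h3 : d * (p ^ a * e') = p ^ a * (d * e') := by ring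
      rw [h3, pow_succ] at h0
      have h4 := Nat.dvd_of_mul_dvd_mul_left (pow_pos hp.pos a) h0
      rcases hp.dvd_mul.1 h4 with h5 | h5
      · exact hpd h5
      · exact he' h5
    have hle : p ^ a ≤ d * (p ^ a * e') := Nat.le_of_dvd hn hdvd
    have h3 := hE c _ (p ^ a) h hle hn
    have hch : 0 < (d * (p ^ a * e')).choose (p ^ a) := Nat.choose_pos hle
    obtain ⟨δ', hδ'⟩ := exists_index h3 hch
    have h4 : δ' ∣ (d * (p ^ a * e')).choose (p ^ a) := (hδ'.2.1 _ hch).1 h3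
    have h5 : IsIndex ((c ^ (p ^ a)) ^ (e' : ℤ)) δ := by
      rw [zpow_natCast, ← pow_mul]
      exact hδ
    exact choose_prime_pow hp hdvd hndvd ((hpδ.trans (hδ'.zpow h5)).trans h4)
  have h3 : δ ∣ d * e := (hδ.2.1 _ hn).1 h1
  exact h2.dvd_of_dvd_mul_right h3

/-- The primary decomposition. -/
theorem exists_primary [Infinite k] (hE : ExtPow k) {c : BrG k} {d e : ℕ}
    (h : HasDeg c (d * e)) (hd : 0 < d) (he : 0 < e) (hco : Nat.Coprime d e) (u v : ℤ)
    (huv : u * d + v * e = 1) :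
    HasDeg (c ^ (v * e)) d ∧ HasDeg (c ^ (u * d)) e := by
  constructor
  · have h1 := (hasDeg_pow_coprime hE h hd he hco).zpow hd v
    rwa [← zpow_natCast, ← _root_.zpow_mul, mul_comm] at h1
  · have h1 := (hasDeg_pow_coprime hE (by rwa [mul_comm] at h) he hd hco.symm).zpow he u
    rwa [← zpow_natCast, ← _root_.zpow_mul, mul_comm] at h1

end Pool.Agent.H72.Br
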