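import Pool.Agent.H72.Br.Assemble

/-!
# Algebras whose degree is not a prime power
-/

set_option autoImplicit false

open Module Matrix TensorProduct
open Pool.Agent.H72.SB hiding IsFunctionField

namespace Pool.Agent.H72.Br

open Pool.Agent.H49.GSB hiding IsFunctionField
open Pool.Agent.H49.Cyc

universe u

variable {k : Type u} [Field k]

/-- Tensor products of coprime degrees. -/
theorem common_coprime [Infinite k] {A B P P' Q Q' : CSA.{u, u} k} {d e m : ℕ}
    (eA : A ≃ₐ[k] P ⊗[k] Q) (eB : B ≃ₐ[k] P' ⊗[k] Q') (hP : finrank k P = d ^ 2)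
    (hP' : finrank k P' = d ^ 2) (hQ : finrank k Q = e ^ 2) (hQ' : finrank k Q' = e ^ 2)
    (hd : 2 ≤ d) (he : 2 ≤ e) (hco : Nat.Coprime d e) (hP₁ : InCyclic P P')
    (hP₂ : InCyclic P' P) (hQ₁ : InCyclic Q Q') (hQ₂ : InCyclic Q' Q) (hm : 1 ≤ m)
    (hmn : m < d * e) :
    ∃ (F : Type u) (_ : Field F) (_ : Algebra k F),
      H72.SB.IsFunctionField A m F ∧ H72.SB.IsFunctionField B m F := by
  by_cases h1 : d ∣ m
  · exact Pool.Agent.H49.Cop.common eA eB hP hP' hQ hQ' hd hco hQ₁ hQ₂ h1 hm hmn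
  by_cases h2 : e ∣ m
  · exact Pool.Agent.H49.Cop.common (eA.trans (Algebra.TensorProduct.comm k P Q))
      (eB.trans (Algebra.TensorProduct.comm k P' Q')) hQ hQ' hP hP' he hco.symm hP₁ hP₂ h2 hm
      (by rwa [mul_comm] at hmn)
  have hA : finrank k A = (d * e) ^ 2 := by
    rw [eA.toLinearEquiv.finrank_eq, Module.finrank_tensorProduct, hP, hQ]; ring
  have hB : finrank k B = (d * e) ^ 2 := by
    rw [eB.toLinearEquiv.finrank_eq, Module.finrank_tensorProduct, hP', hQ']; ring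
  have hd'0 : 0 < Nat.gcd m d := Nat.gcd_pos_of_pos_left _ hm
  have he'0 : 0 < Nat.gcd m e := Nat.gcd_pos_of_pos_left _ hm
  have hd'd : Nat.gcd m d < d := by
    refine lt_of_le_of_ne (Nat.le_of_dvd (by omega) (Nat.gcd_dvd_right m d)) fun h => h1 ?_
    rw [← h]
    exact Nat.gcd_dvd_left m d
  have he'e : Nat.gcd m e < e := by
    refine lt_of_le_of_ne (Nat.le_of_dvd (by omega) (Nat.gcd_dvd_right m e)) fun h => h2 ?_
    rw [← h]
    exact Nat.gcd_dvd_left m e
  have hgcd : Nat.gcd m (d * e) = Nat.gcd m d * Nat.gcd m e := Nat.Coprime.gcd_mul m hco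
  let A' : CSA.{u, u} k := ten P' Q
  have hA' : finrank k A' = (d * e) ^ 2 := by
    have h3 : finrank k A' = finrank k P' * finrank k Q := Module.finrank_tensorProduct
    rw [h3, hP', hQ]; ring
  obtain ⟨F, _, _, hF1, hF2⟩ := swap_first A A' P P' Q eA AlgEquiv.refl hP hP' hQ hco hP₁ hP₂
    hd'0 hd'd (Nat.gcd_dvd_right m d) he'0 he'e (Nat.gcd_dvd_right m e)
  obtain ⟨F', _, _, hF3, hF4⟩ := swap_first A' B Q Q' P' (Algebra.TensorProduct.comm k P' Q)
    (eB.trans (Algebra.TensorProduct.comm k P' Q')) hQ hQ' hP' hco.symm hQ₁ hQ₂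
    he'0 he'e (Nat.gcd_dvd_right m e) hd'0 hd'd (Nat.gcd_dvd_right m d)
  rw [mul_comm (Nat.gcd m e)] at hF3 hF4
  rw [← hgcd] at hF1 hF2 hF3 hF4
  obtain ⟨f⟩ := functionField_unique A' hA' (Nat.mul_pos (by omega) (by omega)) hF3 hF2
  have hF5 : H72.SB.IsFunctionField B (Nat.gcd m (d * e)) F := hF4.congr_field f
  exact ⟨_, _, _, functionField_gcd A hA hm hmn hF1, functionField_gcd B hB hm hmn hF5⟩

theorem exists_coprime {n : ℕ} (hn : 1 < n) (h : ¬ IsPrimePow n) :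
    ∃ d e, 2 ≤ d ∧ 2 ≤ e ∧ Nat.Coprime d e ∧ n = d * e := by
  have hp : n.minFac.Prime := Nat.minFac_prime (by omega)
  obtain ⟨a, n', hn', hna⟩ := Nat.exists_eq_pow_mul_and_not_dvd (by omega : n ≠ 0) n.minFac
    hp.ne_one
  have ha : a ≠ 0 := by
    rintro rfl
    rw [pow_zero, one_mul] at hna
    exact hn' (hna ▸ Nat.minFac_dvd n)
  have hn'0 : n' ≠ 0 := by
    rintro rfl
    exact hn' (dvd_zero _)
  have hn'1 : n' ≠ 1 := by
    rintro rfl
    apply h
    rw [isPrimePow_nat_iff]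
    exact ⟨n.minFac, a, hp, Nat.pos_of_ne_zero ha, by rw [mul_one] at hna; exact hna.symm⟩
  refine ⟨n.minFac ^ a, n', ?_, by omega, ?_, hna⟩
  · calc 2 ≤ n.minFac ^ 1 := by rw [pow_one]; exact hp.two_le
      _ ≤ n.minFac ^ a := Nat.pow_le_pow_right hp.pos (Nat.pos_of_ne_zero ha)
  · exact Nat.Coprime.pow_left a ((Nat.Prime.coprime_iff_not_dvd hp).2 hn')

/-- The main theorem: the degree is not a prime power. -/
theorem same_iff_not_primePow {A B : CSA.{u, u} k} {n m : ℕ} (hA : finrank k A = n ^ 2)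
    (hB : finrank k B = n ^ 2) (hn : ¬ IsPrimePow n) (hm : 1 ≤ m) (hmn : m < n)
    (hAB : InCyclic A B) (hBA : InCyclic B A) :
    (∃ (F : Type u) (_ : Field F) (_ : Algebra k F),
      H72.SB.IsFunctionField A m F ∧ H72.SB.IsFunctionField B m F) ∧
    ∀ (F : Type u) [Field F] [Algebra k F],
      H72.SB.IsFunctionField A m F ↔ H72.SB.IsFunctionField B m F := by
  rcases finite_or_infinite k with hk | hk
  · obtain ⟨f⟩ := nonempty_algEquiv_of_finite A B (by rw [hA, hB])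
    obtain ⟨F, i1, i2, hF⟩ := Pool.Agent.H72.SB.exists_functionField A hA hmn.le
    exact ⟨⟨F, i1, i2, hF, hF.congr f⟩, fun F _ _ => ⟨fun h => h.congr f, fun h => h.congr f.symm⟩⟩
  · obtain ⟨d, e, hd, he, hco, rfl⟩ := exists_coprime (by omega) hn
    obtain ⟨P, Q, hP, hQ, ⟨eA⟩, -, -⟩ := exists_factors A hA (by omega) (by omega) hco
    obtain ⟨P', Q', hP', hQ', ⟨eB⟩, -, -⟩ := exists_factors B hB (by omega) (by omega) hco
    obtain ⟨h1, h2⟩ := inCyclic_factors_of_inCyclic eA eB hP hP' hQ hQ' (by omega) (by omega)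
      hco hAB
    obtain ⟨h3, h4⟩ := inCyclic_factors_of_inCyclic eB eA hP' hP hQ' hQ (by omega) (by omega)
      hco hBA
    obtain ⟨F₀, i1, i2, h5, h6⟩ := common_coprime eA eB hP hP' hQ hQ' hd he hco h1 h3 h2 h4 hm hmn
    refine ⟨⟨F₀, i1, i2, h5, h6⟩, fun F _ _ => ⟨fun h7 => ?_, fun h7 => ?_⟩⟩
    · obtain ⟨f⟩ := functionField_unique A hA (by omega) h5 h7
      exact h6.congr_field f
    · obtain ⟨f⟩ := functionField_unique B hB (by omega) h6 h7
      exact h5.congr_field f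

end Pool.Agent.H72.Br
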