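import Pool.Agent.H72.Br.Trace

/-!
# Tensor powers and permutations of the factors
-/

set_option autoImplicit false

open Module Matrix TensorProduct
open Pool.Agent.H72.SB hiding IsFunctionField

namespace Pool.Agent.H72.Br

universe u

variable {k Ω : Type u} [Field k] [Field Ω] [Algebra k Ω]

open Kronecker in
/-- `M ⊗ 1` -/
noncomputable def krL (k : Type u) {Ω : Type u} [Field k] [Field Ω] [Algebra k Ω] (I J : Type)
    [Fintype I] [DecidableEq I] [Fintype J] [DecidableEq J] :
    Matrix I I Ω →ₐ[k] Matrix (I × J) (I × J) Ω where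
  toFun M := M ⊗ₖ (1 : Matrix J J Ω)
  map_one' := Matrix.one_kronecker_one
  map_mul' M N := by rw [← Matrix.mul_kronecker_mul, one_mul]
  map_zero' := Matrix.zero_kronecker _
  map_add' M N := Matrix.add_kronecker _ _ _
  commutes' r := by
    rw [Algebra.algebraMap_eq_smul_one, Algebra.algebraMap_eq_smul_one, Matrix.smul_kronecker,
      Matrix.one_kronecker_one]

open Kronecker in
/-- `1 ⊗ M` -/
noncomputable def krR (k : Type u) {Ω : Type u} [Field k] [Field Ω] [Algebra k Ω] (I J : Type)
    [Fintype I] [DecidableEq I] [Fintype J] [DecidableEq J] :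
    Matrix J J Ω →ₐ[k] Matrix (I × J) (I × J) Ω where
  toFun M := (1 : Matrix I I Ω) ⊗ₖ M
  map_one' := Matrix.one_kronecker_one
  map_mul' M N := by rw [← Matrix.mul_kronecker_mul, one_mul]
  map_zero' := Matrix.kronecker_zero _
  map_add' M N := Matrix.kronecker_add _ _ _
  commutes' r := by
    rw [Algebra.algebraMap_eq_smul_one, Algebra.algebraMap_eq_smul_one, Matrix.kronecker_smul,
      Matrix.one_kronecker_one]

open Kronecker in
theorem kr_mul (I J : Type) [Fintype I] [DecidableEq I] [Fintype J] [DecidableEq J]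
    (M : Matrix I I Ω) (N : Matrix J J Ω) : krL k I J M * krR k I J N = M ⊗ₖ N := by
  change (M ⊗ₖ (1 : Matrix J J Ω)) * ((1 : Matrix I I Ω) ⊗ₖ N) = _
  rw [← Matrix.mul_kronecker_mul, one_mul, mul_one]

open Kronecker in
theorem kr_comm' (I J : Type) [Fintype I] [DecidableEq I] [Fintype J] [DecidableEq J]
    (M : Matrix I I Ω) (N : Matrix J J Ω) : Commute (krL k I J M) (krR k I J N) := by
  change (M ⊗ₖ (1 : Matrix J J Ω)) * ((1 : Matrix I I Ω) ⊗ₖ N) =
    ((1 : Matrix I I Ω) ⊗ₖ N) * (M ⊗ₖ (1 : Matrix J J Ω))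
  rw [← Matrix.mul_kronecker_mul, ← Matrix.mul_kronecker_mul, one_mul, one_mul, mul_one, mul_one]

/-- Tensor powers with a representation. -/
theorem exists_tens (A : CSA.{u, u} k) {n : ℕ} (hA : finrank k A = n ^ 2)
    (ρ : A →ₐ[k] Matrix (Fin n) (Fin n) Ω) (r : ℕ) :
    ∃ (B : CSA.{u, u} k) (σ : B →ₐ[k] Matrix (Fin r → Fin n) (Fin r → Fin n) Ω),
      cls B = cls A ^ r ∧ finrank k B = (n ^ r) ^ 2 ∧
      ∀ a : Fin r → A, ∃ x : B, ∀ f g, σ x f g = ∏ j, ρ (a j) (f j) (g j) := by
  classical
  induction r with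
  | zero =>
    refine ⟨unit k, Algebra.ofId k _, by rw [pow_zero, cls_unit], ?_, fun a => ⟨1, fun f g => ?_⟩⟩
    · have h1 : finrank k (unit k) = 1 := Module.finrank_self k
      rw [h1]; norm_num
    · rw [map_one, Finset.univ_eq_empty, Finset.prod_empty, Subsingleton.elim f g,
        Matrix.one_apply_eq]
  | succ r ih =>
    obtain ⟨B, σ, hc, hd, hx⟩ := ih
    let φ : A ⊗[k] B →ₐ[k] Matrix (Fin n × (Fin r → Fin n)) (Fin n × (Fin r → Fin n)) Ω :=
      Algebra.TensorProduct.lift ((krL k (Fin n) (Fin r → Fin n)).comp ρ)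
        ((krR k (Fin n) (Fin r → Fin n)).comp σ)
        (fun a b => kr_comm' (k := k) (Fin n) (Fin r → Fin n) (ρ a) (σ b))
    let E : (Fin n × (Fin r → Fin n)) ≃ (Fin (r + 1) → Fin n) := Fin.consEquiv (fun _ => Fin n)
    refine ⟨ten A B, (Matrix.reindexAlgEquiv k Ω E).toAlgHom.comp φ, ?_, ?_, fun a => ?_⟩
    · rw [cls_ten, hc, pow_succ']
    · have h1 : finrank k (ten A B) = finrank k A * finrank k B := Module.finrank_tensorProduct
      rw [h1, hA, hd]
      ring
    · obtain ⟨x, hx⟩ := hx (fun j => a j.succ)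
      refine ⟨(a 0 ⊗ₜ x : A ⊗[k] B), fun f g => ?_⟩
      have h1 : φ (a 0 ⊗ₜ x) = krL k (Fin n) (Fin r → Fin n) (ρ (a 0)) *
          krR k (Fin n) (Fin r → Fin n) (σ x) := Algebra.TensorProduct.lift_tmul _ _ _ _ _
      change (Matrix.reindexAlgEquiv k Ω E) (φ (a 0 ⊗ₜ x)) f g = _
      rw [h1, kr_mul, Matrix.reindexAlgEquiv_apply, Matrix.reindex_apply, Matrix.submatrix_apply,
        Matrix.kronecker_apply, Fin.prod_univ_succ]
      congr 1
      exact hx _ _

section perm

variable {n r : ℕ}

/-- The matrix of a permutation of the factors. -/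
def pmat (Ω : Type u) [Field Ω] (n : ℕ) {r : ℕ} (π : Equiv.Perm (Fin r)) :
    Matrix (Fin r → Fin n) (Fin r → Fin n) Ω :=
  Matrix.of fun f g => if g = f ∘ π then 1 else 0

theorem pmat_apply (π : Equiv.Perm (Fin r)) (f g : Fin r → Fin n) :
    pmat Ω n π f g = if g = f ∘ π then 1 else 0 := rfl

theorem pmat_one : pmat Ω n (1 : Equiv.Perm (Fin r)) = 1 := by
  ext f g
  rw [pmat_apply, Matrix.one_apply]
  congr 1
  exact propext ⟨fun h => by rw [h]; rfl, fun h => by rw [h]; rfl⟩

theorem pmat_mul (π π' : Equiv.Perm (Fin r)) :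
    pmat Ω n π * pmat Ω n π' = pmat Ω n (π * π') := by
  ext f g
  rw [Matrix.mul_apply, Finset.sum_eq_single (f ∘ π)]
  · rw [pmat_apply, pmat_apply, pmat_apply, if_pos rfl, one_mul]
    rfl
  · intro h _ hne
    rw [pmat_apply, if_neg hne, zero_mul]
  · intro h; exact absurd (Finset.mem_univ _) h

theorem pmat_swap_mem {A : Type u} [Ring A] [Algebra k A] {ρ : A →ₐ[k] Matrix (Fin n) (Fin n) Ω}
    (S : Subalgebra k (Matrix (Fin r → Fin n) (Fin r → Fin n) Ω))
    (hS : ∀ a : Fin r → A, (Matrix.of fun f g => ∏ j, ρ (a j) (f j) (g j)) ∈ S)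
    {ι : Type} [Fintype ι] {b c : ι → A}
    (hbc : ∀ x y z w, ∑ l, ρ (b l) x y * ρ (c l) z w = if x = w ∧ y = z then 1 else 0)
    {i j : Fin r} (hij : i ≠ j) : pmat Ω n (Equiv.swap i j) ∈ S := by
  classical
  have hsum : pmat Ω n (Equiv.swap i j) = ∑ l, (Matrix.of fun f g =>
      ∏ m, ρ (Function.update (Function.update (1 : Fin r → A) i (b l)) j (c l) m) (f m) (g m)) := by
    ext f g
    rw [Matrix.sum_apply, pmat_apply]
    have h1 : ∀ l, (Matrix.of fun f g : Fin r → Fin n =>
        ∏ m, ρ (Function.update (Function.update (1 : Fin r → A) i (b l)) j (c l) m) (f m) (g m))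
          f g = ρ (b l) (f i) (g i) * ρ (c l) (f j) (g j) *
            ∏ m ∈ (Finset.univ.erase j).erase i, if f m = g m then (1 : Ω) else 0 := by
      intro l
      rw [Matrix.of_apply, ← Finset.mul_prod_erase Finset.univ _ (Finset.mem_univ j),
        ← Finset.mul_prod_erase (Finset.univ.erase j) _
          (Finset.mem_erase.2 ⟨hij, Finset.mem_univ i⟩), Function.update_self,
        Function.update_of_ne hij, Function.update_self, ← mul_assoc,
        mul_comm (ρ (c l) (f j) (g j))]
      congr 1
      refine Finset.prod_congr rfl fun m hm => ?_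
      rw [Finset.mem_erase, Finset.mem_erase] at hm
      rw [Function.update_of_ne hm.2.1, Function.update_of_ne hm.1, Pi.one_apply, map_one,
        Matrix.one_apply]
    rw [Finset.sum_congr rfl fun l _ => h1 l, ← Finset.sum_mul, hbc, Finset.prod_ite_zero,
      Finset.prod_const_one]
    have hand : ∀ (p q : Prop) [Decidable p] [Decidable q],
        ((if p then (1 : Ω) else 0) * if q then 1 else 0) = if p ∧ q then 1 else 0 := by
      intro p q _ _
      by_cases hp : p <;> by_cases hq : q <;> simp [hp, hq]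
    rw [hand]
    congr 1
    apply propext
    constructor
    · rintro rfl
      refine ⟨⟨?_, ?_⟩, ?_⟩
      · rw [Function.comp_apply, Equiv.swap_apply_right]
      · rw [Function.comp_apply, Equiv.swap_apply_left]
      · intro m hm
        rw [Finset.mem_erase, Finset.mem_erase] at hm
        rw [Function.comp_apply, Equiv.swap_apply_of_ne_of_ne hm.1 hm.2.1]
    · rintro ⟨⟨h2, h3⟩, h4⟩
      funext m
      rw [Function.comp_apply]
      by_cases hmi : m = i
      · rw [hmi, Equiv.swap_apply_left, h3]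
      · by_cases hmj : m = j
        · rw [hmj, Equiv.swap_apply_right, h2]
        · rw [Equiv.swap_apply_of_ne_of_ne hmi hmj]
          exact (h4 m (Finset.mem_erase.2 ⟨hmi, Finset.mem_erase.2 ⟨hmj, Finset.mem_univ m⟩⟩)).symm
  rw [hsum]
  exact S.sum_mem fun l _ => hS _

theorem pmat_mem {A : Type u} [Ring A] [Algebra k A] {ρ : A →ₐ[k] Matrix (Fin n) (Fin n) Ω}
    (S : Subalgebra k (Matrix (Fin r → Fin n) (Fin r → Fin n) Ω))
    (hS : ∀ a : Fin r → A, (Matrix.of fun f g => ∏ j, ρ (a j) (f j) (g j)) ∈ S)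
    {ι : Type} [Fintype ι] {b c : ι → A}
    (hbc : ∀ x y z w, ∑ l, ρ (b l) x y * ρ (c l) z w = if x = w ∧ y = z then 1 else 0)
    (π : Equiv.Perm (Fin r)) : pmat Ω n π ∈ S := by
  refine Equiv.Perm.swap_induction_on π ?_ ?_
  · rw [pmat_one]; exact S.one_mem
  · intro f x y hxy hf
    rw [← pmat_mul]
    exact S.mul_mem (pmat_swap_mem S hS hbc hxy) hf

/-- The antisymmetrizer. -/
noncomputable def anti (Ω : Type u) [Field Ω] (n r : ℕ) :
    Matrix (Fin r → Fin n) (Fin r → Fin n) Ω :=
  ∑ π : Equiv.Perm (Fin r), (Equiv.Perm.sign π : ℤ) • pmat Ω n π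

theorem anti_apply (f g : Fin r → Fin n) : anti Ω n r f g =
    ∑ π : Equiv.Perm (Fin r), (Equiv.Perm.sign π : ℤ) • (if g = f ∘ π then (1 : Ω) else 0) := by
  unfold anti
  rw [Matrix.sum_apply]
  rfl

theorem anti_mem {A : Type u} [Ring A] [Algebra k A] {ρ : A →ₐ[k] Matrix (Fin n) (Fin n) Ω}
    (S : Subalgebra k (Matrix (Fin r → Fin n) (Fin r → Fin n) Ω))
    (hS : ∀ a : Fin r → A, (Matrix.of fun f g => ∏ j, ρ (a j) (f j) (g j)) ∈ S)
    {ι : Type} [Fintype ι] {b c : ι → A}
    (hbc : ∀ x y z w, ∑ l, ρ (b l) x y * ρ (c l) z w = if x = w ∧ y = z then 1 else 0) :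
    anti Ω n r ∈ S :=
  S.sum_mem fun π _ => S.toSubring.zsmul_mem (pmat_mem S hS hbc π) _

/-- The columns of functions which are not injective. -/
theorem anti_of_not_injective (f g : Fin r → Fin n) (hg : ¬ Function.Injective g) :
    anti Ω n r f g = 0 := by
  classical
  rw [anti_apply]
  unfold Function.Injective at hg
  push Not at hg
  obtain ⟨a, b, hab, hne⟩ := hg
  have hgs : g ∘ (Equiv.swap a b) = g := by
    funext m
    rw [Function.comp_apply]
    by_cases hma : m = a
    · rw [hma, Equiv.swap_apply_left, hab]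
    · by_cases hmb : m = b
      · rw [hmb, Equiv.swap_apply_right, hab]
      · rw [Equiv.swap_apply_of_ne_of_ne hma hmb]
  have hiff : ∀ π : Equiv.Perm (Fin r), g = f ∘ (π * Equiv.swap a b : Equiv.Perm (Fin r)) ↔
      g = f ∘ π := by
    intro π
    constructor
    · intro h
      have h1 := congrArg (fun u : Fin r → Fin n => u ∘ (Equiv.swap a b)) h
      simp only [hgs] at h1
      rw [h1]
      funext m
      simp [Equiv.Perm.mul_apply]
    · intro h
      rw [← hgs, h]
      rfl
  refine Finset.sum_involution (fun π _ => π * Equiv.swap a b) ?_ ?_ ?_ ?_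
  · intro π _
    rw [if_congr (hiff π) rfl rfl, Equiv.Perm.sign_mul, Equiv.Perm.sign_swap hne]
    split_ifs <;> simp
  · intro π _ _ h
    have h1 : Equiv.swap a b = 1 := mul_left_cancel (a := π) (by rw [h, mul_one])
    have h2 := congrArg (fun e : Equiv.Perm (Fin r) => e a) h1
    simp only [Equiv.swap_apply_left, Equiv.Perm.coe_one, id_eq] at h2
    exact hne h2.symm
  · intro π _
    exact Finset.mem_univ _
  · intro π _
    rw [mul_assoc, Equiv.swap_mul_self, mul_one]

theorem anti_comp (f g : Fin r → Fin n) (σ : Equiv.Perm (Fin r)) :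
    anti Ω n r f (g ∘ σ) = (Equiv.Perm.sign σ : ℤ) • anti Ω n r f g := by
  rw [anti_apply, anti_apply, Finset.smul_sum,
    ← Equiv.sum_comp (Equiv.mulRight σ) (fun π : Equiv.Perm (Fin r) =>
      (Equiv.Perm.sign π : ℤ) • (if g ∘ σ = f ∘ π then (1 : Ω) else 0))]
  refine Finset.sum_congr rfl fun π _ => ?_
  have h1 : g ∘ σ = f ∘ (Equiv.mulRight σ π : Equiv.Perm (Fin r)) ↔ g = f ∘ π := by
    constructor
    · intro h
      funext m
      have h2 := congrFun h (σ.symm m)
      simpa [Equiv.Perm.mul_apply] using h2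
    · intro h
      rw [h]
      rfl
  rw [if_congr h1 rfl rfl, Equiv.coe_mulRight, Equiv.Perm.sign_mul, smul_smul]
  congr 1
  push_cast
  ring

/-- The subsets with `r` elements. -/
abbrev Sub (n r : ℕ) : Type := {s : Finset (Fin n) // s ∈ Finset.powersetCard r Finset.univ}

theorem sub_card (s : Sub n r) : s.1.card = r := (Finset.mem_powersetCard.1 s.2).2

/-- The increasing enumeration. -/
def enu (s : Sub n r) : Fin r → Fin n := s.1.orderEmbOfFin (sub_card s)

theorem enu_injective (s : Sub n r) : Function.Injective (enu s) :=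
  (s.1.orderEmbOfFin (sub_card s)).injective

theorem range_enu (s : Sub n r) : Set.range (enu s) = s.1 :=
  Finset.range_orderEmbOfFin s.1 (sub_card s)

theorem anti_enu [DecidableEq (Sub n r)] (s t : Sub n r) :
    anti Ω n r (enu s) (enu t) = if s = t then 1 else 0 := by
  classical
  rw [anti_apply]
  split_ifs with h
  · subst h
    rw [Finset.sum_eq_single (1 : Equiv.Perm (Fin r))]
    · rw [if_pos (show enu s = enu s ∘ (1 : Equiv.Perm (Fin r)) from rfl)]
      simp
    · intro π _ hπ
      rw [if_neg, smul_zero]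
      intro h1
      apply hπ
      ext m
      have h2 := congrFun h1 m
      rw [Equiv.Perm.one_apply, ← enu_injective s h2]
    · intro h; exact absurd (Finset.mem_univ _) h
  · refine Finset.sum_eq_zero fun π _ => ?_
    rw [if_neg, smul_zero]
    intro h1
    apply h
    have h2 : Set.range (enu t) = Set.range (enu s) := by
      rw [h1, Set.range_comp, π.surjective.range_eq, Set.image_univ]
    rw [range_enu, range_enu] at h2
    exact Subtype.ext (Finset.coe_injective h2).symm

theorem exists_enu (g : Fin r → Fin n) (hg : Function.Injective g) :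
    ∃ (s : Sub n r) (σ : Equiv.Perm (Fin r)), g = enu s ∘ σ := by
  classical
  let s : Sub n r := ⟨Finset.univ.image g, Finset.mem_powersetCard.2 ⟨Finset.subset_univ _, by
    rw [Finset.card_image_of_injective _ hg, Finset.card_univ, Fintype.card_fin]⟩⟩
  have h1 : ∀ i, ∃ j, enu s j = g i := by
    intro i
    have h2 : g i ∈ Set.range (enu s) := by
      rw [range_enu]
      exact Finset.mem_coe.2 (Finset.mem_image_of_mem g (Finset.mem_univ i))
    exact h2
  choose σ hσ using h1
  have hinj : Function.Injective σ := by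
    intro i j hij
    apply hg
    rw [← hσ i, ← hσ j, hij]
  refine ⟨s, Equiv.ofBijective σ (Finite.injective_iff_bijective.1 hinj), ?_⟩
  funext i
  exact (hσ i).symm

/-- The rank of the antisymmetrizer. -/
theorem rank_anti : (anti Ω n r).rank = n.choose r := by
  classical
  have hli : LinearIndependent Ω fun s : Sub n r => (anti Ω n r).col (enu s) := by
    rw [Fintype.linearIndependent_iff]
    intro c hc t
    have h1 := congrFun hc (enu t)
    rw [Finset.sum_apply, Finset.sum_eq_single t] at h1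
    · have h2 : (anti Ω n r).col (enu t) (enu t) = 1 := by
        change anti Ω n r (enu t) (enu t) = 1
        rw [anti_enu, if_pos rfl]
      rw [Pi.smul_apply, h2, smul_eq_mul, mul_one] at h1
      exact h1
    · intro s _ hs
      have h2 : (anti Ω n r).col (enu s) (enu t) = 0 := by
        change anti Ω n r (enu t) (enu s) = 0
        rw [anti_enu, if_neg (fun h => hs h.symm)]
      rw [Pi.smul_apply, h2, smul_zero]
    · intro h; exact absurd (Finset.mem_univ _) h
  have hspan : Submodule.span Ω (Set.range (anti Ω n r).col) =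
      Submodule.span Ω (Set.range fun s : Sub n r => (anti Ω n r).col (enu s)) := by
    apply le_antisymm
    · rw [Submodule.span_le]
      rintro _ ⟨g, rfl⟩
      by_cases hg : Function.Injective g
      · obtain ⟨s, σ, rfl⟩ := exists_enu g hg
        have h1 : (anti Ω n r).col (enu s ∘ σ) =
            (Equiv.Perm.sign σ : ℤ) • (anti Ω n r).col (enu s) := by
          funext f
          exact anti_comp f (enu s) σ
        rw [h1]
        have h2 : (anti Ω n r).col (enu s) ∈
            Submodule.span Ω (Set.range fun s : Sub n r => (anti Ω n r).col (enu s)) :=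
          Submodule.subset_span ⟨s, rfl⟩
        exact zsmul_mem h2 _
      · have h1 : (anti Ω n r).col g = 0 := by
          funext f
          exact anti_of_not_injective f g hg
        rw [h1]
        exact Submodule.zero_mem _
    · apply Submodule.span_mono
      rintro _ ⟨s, rfl⟩
      exact ⟨enu s, rfl⟩
  rw [Matrix.rank_eq_finrank_span_cols, hspan, finrank_span_eq_card hli, Fintype.card_coe,
    Finset.card_powersetCard, Finset.card_univ, Fintype.card_fin]

end perm

end Pool.Agent.H72.Br
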