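import Pool.Agent.H72.Br.Index

/-!
# The reduced trace is rational
-/

set_option autoImplicit false

open Module Matrix
open Pool.Agent.H72.SB hiding IsFunctionField

namespace Pool.Agent.H72.Br

universe u

variable {k Ω : Type u} [Field k] [Field Ω] [Algebra k Ω]
variable {ι : Type} [Fintype ι] {n : ℕ}
variable {β : Basis ι Ω (Matrix (Fin n) (Fin n) Ω)}

theorem ratV_pow (hβ : IsForm k β) {K : IntermediateField k Ω} {X : Matrix (Fin n) (Fin n) Ω}
    (hX : RatV β K X) (i : ℕ) : RatV β K (X ^ i) := by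
  induction i with
  | zero => rw [pow_zero]; exact hβ.ratV_one K
  | succ i ih => rw [pow_succ]; exact RatV.mul hβ ih hX

/-- The trace of a rational matrix with a cyclic vector is rational. -/
theorem trace_of_cyclic (hβ : IsForm k β) {K : IntermediateField k Ω}
    {X : Matrix (Fin n) (Fin n) Ω} (hX : RatV β K X) {v : Fin n → Ω}
    (hv : LinearIndependent Ω fun i : Fin n => (X ^ (i : ℕ)) *ᵥ v) : X.trace ∈ K := by
  classical
  rcases Nat.eq_zero_or_pos n with hn | hn
  · subst hn
    have : X.trace = 0 := by simp [Matrix.trace]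
    rw [this]
    exact K.zero_mem
  have : Nonempty (Fin n) := ⟨⟨0, hn⟩⟩
  obtain ⟨lam, hlam⟩ := exists_retraction K
  have hdeg : X.charpoly.natDegree = n := by rw [Matrix.charpoly_natDegree_eq_dim, Fintype.card_fin]
  have h1 : ∑ i ∈ Finset.range (n + 1), X.charpoly.coeff i • X ^ i = 0 := by
    have h := Matrix.aeval_self_charpoly X
    rw [Polynomial.aeval_eq_sum_range, hdeg] at h
    exact h
  have h2 : ∑ i ∈ Finset.range (n + 1), (lam (X.charpoly.coeff i) : Ω) • X ^ i = 0 := by
    have h := congrArg (lamE β lam) h1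
    rw [lamE_sum, lamE_zero] at h
    rw [← h]
    exact Finset.sum_congr rfl fun i _ => (lamE_smul lam _ (ratV_pow hβ hX i)).symm
  have htop : X.charpoly.coeff n = 1 := by
    have := X.charpoly_monic.coeff_natDegree
    rwa [hdeg] at this
  have h3 : ∑ i ∈ Finset.range (n + 1),
      (X.charpoly.coeff i - (lam (X.charpoly.coeff i) : Ω)) • X ^ i = 0 := by
    have h4 : ∑ i ∈ Finset.range (n + 1),
        (X.charpoly.coeff i - (lam (X.charpoly.coeff i) : Ω)) • X ^ i =
        ∑ i ∈ Finset.range (n + 1), X.charpoly.coeff i • X ^ i -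
        ∑ i ∈ Finset.range (n + 1), (lam (X.charpoly.coeff i) : Ω) • X ^ i := by
      rw [← Finset.sum_sub_distrib]
      exact Finset.sum_congr rfl fun i _ => sub_smul _ _ _
    rw [h4, h1, h2, sub_zero]
  have hl1 : (lam 1 : Ω) = 1 := by
    rw [hlam 1 K.one_mem]
  rw [Finset.sum_range_succ, htop, hl1, sub_self, zero_smul, add_zero] at h3
  have h5 : ∑ i : Fin n, (X.charpoly.coeff i - (lam (X.charpoly.coeff i) : Ω)) •
      ((X ^ (i : ℕ)) *ᵥ v) = 0 := by
    have h6 := congrArg (fun M : Matrix (Fin n) (Fin n) Ω => M *ᵥ v) h3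
    simp only [Matrix.zero_mulVec] at h6
    rw [← h6, ← Fin.sum_univ_eq_sum_range
      (fun i => (X.charpoly.coeff i - (lam (X.charpoly.coeff i) : Ω)) • X ^ i) n,
      Matrix.sum_mulVec]
    exact Finset.sum_congr rfl fun i _ => (Matrix.smul_mulVec _ _ _).symm
  have h7 := Fintype.linearIndependent_iff.1 hv _ h5 ⟨n - 1, by omega⟩
  have h8 : X.charpoly.coeff (n - 1) = (lam (X.charpoly.coeff (n - 1)) : Ω) := sub_eq_zero.1 h7
  rw [Matrix.trace_eq_neg_charpoly_coeff, Fintype.card_fin, h8]
  exact K.neg_mem (lam _).2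

private theorem trace_poly (x y : Matrix (Fin n) (Fin n) Ω) (v : Fin n → Ω) (i : ℕ) :
    ∀ j : Fin n, ∃ p : Polynomial Ω, ∀ t : Ω, (((x + t • y) ^ i) *ᵥ v) j = p.eval t := by
  induction i with
  | zero =>
    intro j
    exact ⟨Polynomial.C (v j), fun t => by rw [pow_zero, Matrix.one_mulVec, Polynomial.eval_C]⟩
  | succ i ih =>
    intro j
    choose p hp using ih
    refine ⟨∑ l, (Polynomial.C (x j l) + Polynomial.X * Polynomial.C (y j l)) * p l,
      fun t => ?_⟩
    rw [pow_succ', ← Matrix.mulVec_mulVec, Polynomial.eval_finsetSum, Matrix.mulVec, dotProduct]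
    refine Finset.sum_congr rfl fun l _ => ?_
    rw [hp l t, Polynomial.eval_mul, Polynomial.eval_add, Polynomial.eval_mul, Polynomial.eval_C,
      Polynomial.eval_X, Polynomial.eval_C, Matrix.add_apply, Matrix.smul_apply, smul_eq_mul]

/-- The trace of a rational matrix is rational. -/
theorem trace_rational [Infinite k] (hβ : IsForm k β) {X : Matrix (Fin n) (Fin n) Ω}
    (hX : RatV β (⊥ : IntermediateField k Ω) X) : X.trace ∈ (⊥ : IntermediateField k Ω) := by
  classical
  rcases Nat.eq_zero_or_pos n with hn | hn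
  · subst hn
    have : X.trace = 0 := by simp [Matrix.trace]
    rw [this]
    exact IntermediateField.zero_mem _
  obtain ⟨e, a, -, ha, -, -, -, -, v, -, hv⟩ := exists_cyclic (K := (⊥ : IntermediateField k Ω))
    (U := ⊤) (l := n) hβ (by simp) hn ratR_top
  have hopen : LineOpen Ω fun x : Matrix (Fin n) (Fin n) Ω =>
      LinearIndependent Ω fun i : Fin n => (x ^ (i : ℕ)) *ᵥ v :=
    lineOpen_linearIndependent (fun x (i : Fin n) => (x ^ (i : ℕ)) *ᵥ v)
      fun x y i j => trace_poly x y v i j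
  have hfin := hopen a X hv
  have hinf : (Set.range (algebraMap k Ω)).Infinite :=
    Set.infinite_range_of_injective (algebraMap k Ω).injective
  obtain ⟨t, ⟨⟨s, rfl⟩, ht⟩, hs⟩ := ((hinf.diff hfin).diff (Set.finite_singleton (0 : Ω))).nonempty
  have ht' : LinearIndependent Ω fun i : Fin n => ((a + algebraMap k Ω s • X) ^ (i : ℕ)) *ᵥ v := by
    by_contra hcon
    exact ht hcon
  have hs0 : algebraMap k Ω s ≠ 0 := hs
  have hsm : algebraMap k Ω s ∈ (⊥ : IntermediateField k Ω) := IntermediateField.algebraMap_mem _ s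
  have h1 := trace_of_cyclic hβ (ha.add (hX.smul hsm)) ht'
  have h2 := trace_of_cyclic hβ ha hv
  rw [Matrix.trace_add, Matrix.trace_smul] at h1
  have h3 := (⊥ : IntermediateField k Ω).sub_mem h1 h2
  rw [add_sub_cancel_left, smul_eq_mul] at h3
  have h4 := (⊥ : IntermediateField k Ω).mul_mem ((⊥ : IntermediateField k Ω).inv_mem hsm) h3
  rwa [inv_mul_cancel_left₀ hs0] at h4

/-- The two families of a Goldman element. -/
theorem exists_goldman [Infinite k] {A : Type u} [Ring A] [Algebra k A]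
    {ρ : A →ₐ[k] Matrix (Fin n) (Fin n) Ω} {b : Basis ι k A} (hρ : ∀ i, β i = ρ (b i)) :
    ∃ c : ι → A, ∀ x y z w, ∑ l, ρ (b l) x y * ρ (c l) z w = if x = w ∧ y = z then 1 else 0 := by
  classical
  have hβ := isForm_of_rho hρ
  have hrat : ∀ l m, ∃ g : k, algebraMap k Ω g = (β l * β m).trace := by
    intro l m
    have h1 : RatV β (⊥ : IntermediateField k Ω) (β l * β m) := hβ.mul l m
    exact IntermediateField.mem_bot.1 (trace_rational hβ h1)
  choose G₀ hG₀ using hrat
  let G : Matrix ι ι k := Matrix.of G₀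
  have hG : ∀ l m, (G.map (algebraMap k Ω)) l m = (β l * β m).trace := hG₀
  have hinj : ∀ v : ι → Ω, (G.map (algebraMap k Ω)) *ᵥ v = 0 → v = 0 := by
    intro v hv
    have h1 : ∀ l, (β l * ∑ m, v m • β m).trace = 0 := by
      intro l
      have h2 : ∑ m, (G.map (algebraMap k Ω)) l m * v m = 0 := congrFun hv l
      rw [Finset.mul_sum, Matrix.trace_sum, ← h2]
      refine Finset.sum_congr rfl fun m _ => ?_
      rw [Matrix.mul_smul, Matrix.trace_smul, hG, smul_eq_mul, mul_comm]
    have h3 : ∀ Y : Matrix (Fin n) (Fin n) Ω, (Y * ∑ m, v m • β m).trace = 0 := by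
      intro Y
      rw [← β.sum_repr Y, Finset.sum_mul, Matrix.trace_sum]
      refine Finset.sum_eq_zero fun l _ => ?_
      rw [Matrix.smul_mul, Matrix.trace_smul, h1, smul_zero]
    have h4 : ∑ m, v m • β m = 0 := by
      ext i j
      have h5 := h3 (Matrix.single j i 1)
      rw [Matrix.trace_single_mul] at h5
      simpa using h5
    funext m
    have h6 := Fintype.linearIndependent_iff.1 β.linearIndependent v h4
    exact h6 m
  have hdet : IsUnit (G.map (algebraMap k Ω)).det := by
    rw [isUnit_iff_ne_zero]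
    intro h0
    obtain ⟨v, hv0, hv⟩ := Matrix.exists_mulVec_eq_zero_iff.2 h0
    exact hv0 (hinj v hv)
  have hdet' : G.det ≠ 0 := by
    intro h0
    have h1 : (G.map (algebraMap k Ω)).det = algebraMap k Ω G.det :=
      (RingHom.map_det (algebraMap k Ω) G).symm
    rw [h1, h0, map_zero] at hdet
    exact not_isUnit_zero hdet
  have hGi : G * G⁻¹ = 1 := Matrix.mul_nonsing_inv G (isUnit_iff_ne_zero.2 hdet')
  let c : ι → A := fun l => ∑ m, G⁻¹ m l • b m
  have hc : ∀ l, ρ (c l) = ∑ m, algebraMap k Ω (G⁻¹ m l) • β m := by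
    intro l
    rw [map_sum]
    refine Finset.sum_congr rfl fun m _ => ?_
    rw [map_smul, hρ, algebraMap_smul]
  have hdual : ∀ l' l, (β l' * ρ (c l)).trace = if l' = l then 1 else 0 := by
    intro l' l
    rw [hc, Finset.mul_sum, Matrix.trace_sum]
    have h1 : (G * G⁻¹) l' l = if l' = l then 1 else 0 := by rw [hGi, Matrix.one_apply]
    rw [Matrix.mul_apply] at h1
    have h2 := congrArg (algebraMap k Ω) h1
    rw [map_sum] at h2
    have h3 : algebraMap k Ω (if l' = l then 1 else 0) = if l' = l then 1 else 0 := by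
      split_ifs <;> simp
    rw [← h3, ← h2]
    refine Finset.sum_congr rfl fun m _ => ?_
    rw [Matrix.mul_smul, Matrix.trace_smul, ← hG₀ l' m, smul_eq_mul, map_mul, mul_comm]
    rfl
  have hexp : ∀ Y : Matrix (Fin n) (Fin n) Ω, Y = ∑ l, (Y * ρ (c l)).trace • β l := by
    intro Y
    conv_lhs => rw [← β.sum_repr Y]
    refine Finset.sum_congr rfl fun l _ => ?_
    congr 1
    conv_rhs => rw [← β.sum_repr Y]
    rw [Finset.sum_mul, Matrix.trace_sum, Finset.sum_eq_single l]
    · rw [Matrix.smul_mul, Matrix.trace_smul, hdual, if_pos rfl, smul_eq_mul, mul_one]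
    · intro m _ hm
      rw [Matrix.smul_mul, Matrix.trace_smul, hdual, if_neg hm, smul_zero]
    · intro h; exact absurd (Finset.mem_univ _) h
  refine ⟨c, fun x y z w => ?_⟩
  have h1 := congrFun (congrFun (hexp (Matrix.single w z 1)) x) y
  rw [Matrix.sum_apply] at h1
  have h2 : ∀ l, ((Matrix.single w z 1 * ρ (c l)).trace • β l) x y = ρ (b l) x y * ρ (c l) z w := by
    intro l
    rw [Matrix.trace_single_mul, Matrix.smul_apply, hρ, one_smul, smul_eq_mul, mul_comm]
  rw [Finset.sum_congr rfl fun l _ => h2 l] at h1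
  rw [← h1, Matrix.single_apply]
  congr 1
  exact propext ⟨fun h => ⟨h.1.symm, h.2.symm⟩, fun h => ⟨h.1.symm, h.2.symm⟩⟩

end Pool.Agent.H72.Br
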